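import Pool.Agent.Q124.HB.FOU

/-!
# Project HB, job GZE: the free resolvent on the diagonal
-/

set_option autoImplicit false

open MeasureTheory

namespace Pool.Agent.Q124.HB

open Pool.Agent.Q218.HB

variable {d n : ℕ} [NeZero n]

theorem pt_im (E η : ℝ) : (pt E η).im = η := by
  unfold pt
  simp

theorem pt_re (E η : ℝ) : (pt E η).re = E := by
  unfold pt
  simp

theorem en_sub_ne (E η : ℝ) (hη : 0 < η) (e : ℝ) : ((e : ℂ) - pt E η) ≠ 0 := by
  intro h
  have h1 := congrArg Complex.im h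
  rw [Complex.sub_im, pt_im, Complex.ofReal_im, Complex.zero_im] at h1
  linarith

/-- the free resolvent is `F diag (1/(e - z)) F*` -/
theorem G_diag (F : Matrix (Tor d n) (Tor d n) ℂ) (h1 : F * F.conjTranspose = 1)
    (h3 : Hm hop (fun _ => 0) * F = F * Matrix.diagonal (fun k => ((en k : ℝ) : ℂ)))
    (E η : ℝ) (hη : 0 < η) :
    G hop (fun _ => 0) (pt E η) =
      F * Matrix.diagonal (fun k : Tor d n => (((en k : ℝ) : ℂ) - pt E η)⁻¹) * F.conjTranspose := by
  unfold G
  refine Matrix.inv_eq_right_inv ?_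
  have h4 : (Hm hop (fun _ => 0) - pt E η • (1 : Matrix (Tor d n) (Tor d n) ℂ)) * F =
      F * Matrix.diagonal (fun k : Tor d n => (((en k : ℝ) : ℂ) - pt E η)) := by
    rw [sub_mul, h3, Matrix.smul_mul, one_mul]
    have h5 : Matrix.diagonal (fun k : Tor d n => (((en k : ℝ) : ℂ) - pt E η)) =
        Matrix.diagonal (fun k : Tor d n => ((en k : ℝ) : ℂ)) - pt E η • (1 : Matrix (Tor d n) (Tor d n) ℂ) := by
      ext a b
      rw [Matrix.sub_apply, Matrix.smul_apply, Matrix.diagonal_apply, Matrix.diagonal_apply, Matrix.one_apply]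
      split_ifs <;> simp
    rw [h5, mul_sub, Matrix.mul_smul, mul_one]
  rw [← mul_assoc, ← mul_assoc, h4, mul_assoc F, Matrix.diagonal_mul_diagonal]
  have h6 : (Matrix.diagonal fun k : Tor d n => (((en k : ℝ) : ℂ) - pt E η) * (((en k : ℝ) : ℂ) - pt E η)⁻¹) = 1 := by
    rw [← Matrix.diagonal_one]
    congr 1
    funext k
    exact mul_inv_cancel₀ (en_sub_ne E η hη (en k))
  rw [h6, mul_one, h1]

theorem inv_eq_int (E η : ℝ) (hη : 0 < η) (e : ℝ) :
    (((e : ℂ) - pt E η))⁻¹ = Complex.I * ∫ q in Set.Ioi (0 : ℝ),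
      Complex.exp (Complex.I * (pt E η - (e : ℂ)) * (q : ℂ)) := by
  have hre : (Complex.I * (pt E η - (e : ℂ))).re < 0 := by
    rw [Complex.I_mul_re, Complex.sub_im, pt_im, Complex.ofReal_im]
    linarith
  rw [integral_exp_mul_complex_Ioi hre 0]
  have h1 := en_sub_ne E η hη e
  have h2 : pt E η - (e : ℂ) ≠ 0 := by
    intro h
    exact h1 (by linear_combination -h)
  rw [Complex.ofReal_zero, mul_zero, Complex.exp_zero]
  field_simp
  ring

theorem exp_norm (E η : ℝ) (e q : ℝ) :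
    ‖Complex.exp (Complex.I * (pt E η - (e : ℂ)) * (q : ℂ))‖ = Real.exp (-(η * q)) := by
  rw [Complex.norm_exp]
  congr 1
  rw [mul_assoc, Complex.I_mul_re, Complex.mul_im, Complex.sub_im, pt_im]
  simp

theorem mean_exp (q : ℝ) : ∑ k : Tor d n, Complex.exp (-(Complex.I * ((en k : ℝ) : ℂ) * (q : ℂ))) =
    ((n : ℂ) * bn n q) ^ d := by
  have hn : (n : ℂ) ≠ 0 := by exact_mod_cast NeZero.ne n
  unfold bn
  rw [mul_inv_cancel_left₀ hn]
  have h2 := Finset.prod_univ_sum (fun _ : Fin d => (Finset.univ : Finset (ZMod n)))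
    (fun _ c => Complex.exp (2 * (q : ℂ) * Complex.I * (Real.cos (2 * Real.pi * (c.val : ℝ) / n) : ℝ)))
  rw [Fintype.piFinset_univ, Finset.prod_const, Finset.card_univ, Fintype.card_fin] at h2
  rw [h2]
  refine Finset.sum_congr rfl fun k _ => ?_
  rw [← Complex.exp_sum]
  congr 1
  unfold en
  rw [← Finset.mul_sum]
  push_cast
  ring

/-- JOB GZE -/
theorem gze : S_GZE := by
  intro hF d n _ E η hη x
  obtain ⟨F, h1, _, hn, h3, _⟩ := hF d n
  have hn0 : (0 : ℝ) < (n : ℝ) ^ d := pow_pos (by exact_mod_cast Nat.pos_of_ne_zero (NeZero.ne n)) d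
  have hnC : ((n : ℂ)) ^ d ≠ 0 := by exact_mod_cast hn0.ne'
  have e1 : G hop (fun _ => 0) (pt E η) x x =
      ∑ k : Tor d n, ((n : ℂ) ^ d)⁻¹ * (((en k : ℝ) : ℂ) - pt E η)⁻¹ := by
    rw [G_diag F h1 h3 E η hη, Matrix.mul_apply]
    refine Finset.sum_congr rfl fun k _ => ?_
    rw [Matrix.mul_diagonal, Matrix.conjTranspose_apply]
    have e2 : F x k * star (F x k) = ((n : ℂ) ^ d)⁻¹ := by
      have e3 : F x k * star (F x k) = ((‖F x k‖ ^ 2 : ℝ) : ℂ) := by
        have := Complex.mul_conj' (F x k)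
        push_cast
        exact this
      rw [e3, hn x k]
      push_cast
      rw [one_div]
    rw [← e2]
    ring
  have hint : ∀ k : Tor d n, Integrable (fun q : ℝ => ((n : ℂ) ^ d)⁻¹ *
      Complex.exp (Complex.I * (pt E η - ((en k : ℝ) : ℂ)) * (q : ℂ))) (volume.restrict (Set.Ioi (0 : ℝ))) := by
    intro k
    refine Integrable.const_mul ?_ _
    refine integrableOn_exp_mul_complex_Ioi ?_ 0
    rw [Complex.I_mul_re, Complex.sub_im, pt_im, Complex.ofReal_im]
    linarith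
  have e4 : G hop (fun _ => 0) (pt E η) x x = Complex.I * ∫ q in Set.Ioi (0 : ℝ),
      ∑ k : Tor d n, ((n : ℂ) ^ d)⁻¹ * Complex.exp (Complex.I * (pt E η - ((en k : ℝ) : ℂ)) * (q : ℂ)) := by
    rw [e1, integral_finsetSum _ fun k _ => hint k, Finset.mul_sum]
    refine Finset.sum_congr rfl fun k _ => ?_
    rw [inv_eq_int E η hη (en k), integral_const_mul]
    ring
  have e5 : ∀ q : ℝ, ∑ k : Tor d n, ((n : ℂ) ^ d)⁻¹ *
      Complex.exp (Complex.I * (pt E η - ((en k : ℝ) : ℂ)) * (q : ℂ)) =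
      Complex.exp (Complex.I * (pt E η) * (q : ℂ)) * bn n q ^ d := by
    intro q
    have e6 : ∀ k : Tor d n, ((n : ℂ) ^ d)⁻¹ *
        Complex.exp (Complex.I * (pt E η - ((en k : ℝ) : ℂ)) * (q : ℂ)) =
        (((n : ℂ) ^ d)⁻¹ * Complex.exp (Complex.I * (pt E η) * (q : ℂ))) *
          Complex.exp (-(Complex.I * ((en k : ℝ) : ℂ) * (q : ℂ))) := by
      intro k
      rw [mul_assoc (((n : ℂ) ^ d)⁻¹), ← Complex.exp_add]
      congr 2
      ring
    rw [Finset.sum_congr rfl fun k _ => e6 k, ← Finset.mul_sum, mean_exp, mul_pow]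
    field_simp
  rw [e4, norm_mul, Complex.norm_I, one_mul]
  refine (norm_integral_le_integral_norm _).trans (le_of_eq ?_)
  unfold In
  refine integral_congr_ae (Filter.Eventually.of_forall fun q => ?_)
  have e7 := exp_norm E η 0 q
  rw [Complex.ofReal_zero, sub_zero] at e7
  simp only []
  rw [e5 q, norm_mul, norm_pow, e7]

end Pool.Agent.Q124.HB
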