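import Pool.Agent.Q218.HB.Stm

/-!
# Project HB, job BIN: the integral of a power of the Bessel function
-/

set_option autoImplicit false

open MeasureTheory

namespace Pool.Agent.Q124.HB

open Pool.Agent.Q218.HB

/-- `ρ^m (m+1) √m` is bounded -/
theorem pow_bound (ρ : ℝ) (h0 : 0 ≤ ρ) (h1 : ρ < 1) :
    ∃ C : ℝ, 0 ≤ C ∧ ∀ m : ℕ, 1 ≤ m → ρ ^ m * ((m : ℝ) + 1) * Real.sqrt m ≤ C := by
  have h2 := tendsto_pow_const_mul_const_pow_of_lt_one 2 h0 h1
  obtain ⟨B, hB⟩ := h2.bddAbove_range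
  have hB0 : ∀ m : ℕ, (m : ℝ) ^ 2 * ρ ^ m ≤ B := fun m => hB ⟨m, rfl⟩
  refine ⟨2 * B, ?_, fun m hm => ?_⟩
  · have := hB0 0
    simp at this
    linarith
  · have hm1 : (1 : ℝ) ≤ m := by exact_mod_cast hm
    have hs : Real.sqrt m ≤ m := by
      rw [Real.sqrt_le_left (by linarith)]
      nlinarith
    have hρ : 0 ≤ ρ ^ m := pow_nonneg h0 m
    calc ρ ^ m * ((m : ℝ) + 1) * Real.sqrt m ≤ ρ ^ m * (2 * m) * m := by
          apply mul_le_mul _ hs (Real.sqrt_nonneg _) (by positivity)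
          exact mul_le_mul_of_nonneg_left (by linarith) hρ
      _ = 2 * ((m : ℝ) ^ 2 * ρ ^ m) := by ring
      _ ≤ 2 * B := by linarith [hB0 m]

/-- JOB BIN -/
theorem bin : S_BIN := by
  rintro ⟨c, q0, ρ, hc, hq0, hρ0, hρ1, hA, hB⟩
  obtain ⟨C, hC0, hC⟩ := pow_bound ρ hρ0 hρ1
  refine ⟨Real.sqrt (Real.pi / c) / 2 + C, fun m η hm hη => ?_⟩
  have hm0 : (0 : ℝ) < m := by exact_mod_cast hm
  have hη0 : 0 < η := lt_of_lt_of_le (by positivity) hη
  have hs0 : 0 < Real.sqrt m := Real.sqrt_pos.2 hm0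
  have hcm : 0 < c * m := mul_pos hc hm0
  have i1 : Integrable (fun q : ℝ => Real.exp (-(c * m) * q ^ 2)) (volume.restrict (Set.Ioi (0 : ℝ))) :=
    (integrable_exp_neg_mul_sq hcm).restrict
  have i2 : Integrable (fun q : ℝ => ρ ^ m * Real.exp ((-η) * q)) (volume.restrict (Set.Ioi (0 : ℝ))) := by
    refine Integrable.const_mul ?_ _
    exact exp_neg_integrableOn_Ioi 0 hη0
  have h1 : ∫ q in Set.Ioi (0 : ℝ), Real.exp (-(η * q)) * ‖bc q‖ ^ m ≤
      ∫ q in Set.Ioi (0 : ℝ), (Real.exp (-(c * m) * q ^ 2) + ρ ^ m * Real.exp ((-η) * q)) := by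
    refine integral_mono_of_nonneg (Filter.Eventually.of_forall fun q => by positivity) (i1.add i2) ?_
    refine (ae_restrict_iff' measurableSet_Ioi).2 (Filter.Eventually.of_forall fun q hq => ?_)
    have hq' : 0 < q := hq
    simp only []
    have he : Real.exp (-(η * q)) ≤ 1 := Real.exp_le_one_iff.2 (by nlinarith)
    rcases le_or_gt q q0 with h | h
    · have h2 : ‖bc q‖ ^ m ≤ Real.exp (-(c * m) * q ^ 2) := by
        have h3 : ‖bc q‖ ^ m ≤ Real.exp (-(c * q ^ 2)) ^ m :=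
          pow_le_pow_left₀ (norm_nonneg _) (hA q hq'.le h) m
        rw [← Real.exp_nat_mul] at h3
        have e : (m : ℝ) * -(c * q ^ 2) = -(c * m) * q ^ 2 := by ring
        rwa [e] at h3
      have h4 : Real.exp (-(η * q)) * ‖bc q‖ ^ m ≤ 1 * Real.exp (-(c * m) * q ^ 2) :=
        mul_le_mul he h2 (by positivity) zero_le_one
      have h5 : 0 ≤ ρ ^ m * Real.exp ((-η) * q) := by positivity
      linarith
    · have h2 : ‖bc q‖ ^ m ≤ ρ ^ m := pow_le_pow_left₀ (norm_nonneg _) (hB q h.le) m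
      have h4 : Real.exp (-(η * q)) * ‖bc q‖ ^ m ≤ Real.exp ((-η) * q) * ρ ^ m := by
        have e : -(η * q) = (-η) * q := by ring
        rw [e]
        exact mul_le_mul_of_nonneg_left h2 (Real.exp_pos _).le
      have h5 : 0 ≤ Real.exp (-(c * m) * q ^ 2) := (Real.exp_pos _).le
      linarith
  refine h1.trans ?_
  rw [integral_add i1 i2, integral_const_mul, integral_gaussian_Ioi, integral_exp_mul_Ioi (by linarith : -η < 0) 0]
  rw [add_div]
  have e1 : Real.sqrt (Real.pi / (c * m)) / 2 = Real.sqrt (Real.pi / c) / 2 / Real.sqrt m := by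
    have e2 : Real.pi / (c * m) = (Real.pi / c) / m := by field_simp
    rw [e2, Real.sqrt_div (by positivity)]
    ring
  rw [e1]
  have e3 : ρ ^ m * (-Real.exp (-η * 0) / -η) ≤ C / Real.sqrt m := by
    rw [mul_zero, Real.exp_zero, le_div_iff₀ hs0]
    have e4 : (-1 : ℝ) / -η = 1 / η := by field_simp
    rw [e4]
    have e5 : 1 / η ≤ (m : ℝ) + 1 := by
      rw [div_le_iff₀ hη0]
      rw [div_le_iff₀ (by positivity)] at hη
      linarith
    refine le_trans ?_ (hC m hm)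
    have hρ : 0 ≤ ρ ^ m := pow_nonneg hρ0 m
    exact mul_le_mul_of_nonneg_right (mul_le_mul_of_nonneg_left e5 hρ) hs0.le
  linarith

end Pool.Agent.Q124.HB
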