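import Pool.Agent.Q124.HB.Def

/-!
# MP_5a160e_an: the class of functions

* `mono_of_class` : `μ ‖x-y‖² ≤ ⟪∇f x - ∇f y, x - y⟫` for `f` of the class.
* `exists_fun` : for a nonempty complete convex set `Q` and `0 ≤ μ ≤ L` there is a function of the class with
  `∇f x = L x - (L-μ) q` whenever `q ∈ Q` and `⟪x - q, y - q⟫ ≤ 0` for all `y ∈ Q`.
-/

open Set InnerProductSpace
open scoped Topology

namespace Pool.Agent.Q124.HB

variable {E : Type*} [NormedAddCommGroup E] [InnerProductSpace ℝ E] [CompleteSpace E]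

/-- strong monotonicity of the gradient -/
theorem mono_of_class {μ L : ℝ} {f : E → ℝ} (hf : InClass μ L f) (x y : E) :
    μ * ‖x - y‖ ^ 2 ≤ inner ℝ (gradient f x - gradient f y) (x - y) := by
  obtain ⟨hd, hs, -⟩ := hf
  have hc := strongConvexOn_iff_convex.1 hs
  set g : E → ℝ := fun z => f z - μ / 2 * ‖z‖ ^ 2 with hg
  let F : ℝ → ℝ := fun t => g (AffineMap.lineMap y x t)
  have hF : ConvexOn ℝ univ F := by
    have := hc.comp_affineMap (AffineMap.lineMap (k := ℝ) y x)
    simpa [F, Function.comp_def] using this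
  have hder : ∀ t : ℝ, HasDerivAt F (inner ℝ (gradient f (AffineMap.lineMap y x t)) (x - y) -
      μ * inner ℝ (AffineMap.lineMap y x t : E) (x - y)) t := by
    intro t
    have h1 : HasDerivAt (fun t : ℝ => (AffineMap.lineMap y x t : E)) (x - y) t := by
      have := AffineMap.hasDerivAt_lineMap (a := y) (b := x) (x := t)
      simpa using this
    have h2 : HasFDerivAt f (fderiv ℝ f (AffineMap.lineMap y x t)) (AffineMap.lineMap y x t) :=
      (hd _).hasFDerivAt
    have h3 := h2.comp_hasDerivAt t h1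
    have h4 : HasDerivAt (fun t : ℝ => ‖(AffineMap.lineMap y x t : E)‖ ^ 2)
        (2 * inner ℝ (AffineMap.lineMap y x t : E) (x - y)) t := h1.norm_sq
    have h5 := h3.sub (h4.const_mul (μ / 2))
    have e : fderiv ℝ f (AffineMap.lineMap y x t) (x - y) =
        inner ℝ (gradient f (AffineMap.lineMap y x t)) (x - y) := by
      rw [inner_gradient_left]
    rw [e] at h5
    have e2 : inner ℝ (gradient f (AffineMap.lineMap y x t)) (x - y) -
      μ * inner ℝ (AffineMap.lineMap y x t : E) (x - y) = inner ℝ (gradient f (AffineMap.lineMap y x t)) (x - y) -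
      μ / 2 * (2 * inner ℝ (AffineMap.lineMap y x t : E) (x - y)) := by ring
    rw [e2]
    exact h5
  have s1 := hF.le_slope_of_hasDerivAt (mem_univ 0) (mem_univ 1) (by norm_num) (hder 0)
  have s2 := hF.slope_le_of_hasDerivAt (mem_univ 0) (mem_univ 1) (by norm_num) (hder 1)
  have h := s1.trans s2
  rw [AffineMap.lineMap_apply_zero, AffineMap.lineMap_apply_one] at h
  have e1 : ‖x - y‖ ^ 2 = inner ℝ x (x - y) - inner ℝ y (x - y) := by
    rw [← inner_sub_left, real_inner_self_eq_norm_sq]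
  rw [e1, inner_sub_left]
  linarith

/-- a function with a quadratic expansion has this gradient -/
theorem hasGradientAt_of_bound {F : E → ℝ} {g x : E} {c : ℝ}
    (h : ∀ y, |F y - F x - inner ℝ g (y - x)| ≤ c * ‖y - x‖ ^ 2) : HasGradientAt F g x := by
  rw [hasGradientAt_iff_isLittleO]
  have h1 : (fun y => F y - F x - inner ℝ g (y - x)) =O[𝓝 x] fun y => ‖y - x‖ ^ 2 := by
    refine Asymptotics.IsBigO.of_bound c (Filter.Eventually.of_forall fun y => ?_)
    rw [Real.norm_eq_abs, Real.norm_of_nonneg (sq_nonneg _)]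
    exact h y
  refine h1.trans_isLittleO ?_
  have h2 : (fun y : E => ‖y - x‖ ^ 2) =o[𝓝 x] fun y => ‖y - x‖ := by
    have : (fun y : E => ‖y - x‖ ^ 2) = fun y => ‖y - x‖ * ‖y - x‖ := by
      ext y
      ring
    rw [this]
    have h3 : (fun y : E => ‖y - x‖) =o[𝓝 x] fun _ => (1 : ℝ) := by
      rw [Asymptotics.isLittleO_one_iff]
      have : Filter.Tendsto (fun y : E => ‖y - x‖) (𝓝 x) (𝓝 ‖x - x‖) :=
        ((continuous_id.sub continuous_const).norm).tendsto x
      simpa using this
    have h4 := h3.mul_isBigO (Asymptotics.isBigO_refl (fun y : E => ‖y - x‖) (𝓝 x))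
    simpa using h4
  exact h2.trans_isBigO (Asymptotics.isBigO_norm_left.2 (Asymptotics.isBigO_refl (fun y : E => y - x) (𝓝 x)))

/-- the function `μ/2 ‖x‖² + (L-μ)/2 dist(x, Q)²` -/
theorem exists_fun {Q : Set E} (hne : Q.Nonempty) (hQ : IsComplete Q) (hc : Convex ℝ Q) {μ L : ℝ} (h0 : 0 ≤ μ)
    (hL : μ ≤ L) :
    ∃ f : E → ℝ, InClass μ L f ∧ ∀ x q, q ∈ Q → (∀ y ∈ Q, inner ℝ (x - q) (y - q) ≤ 0) →
      gradient f x = L • x - (L - μ) • q := by
  have hp : ∀ x : E, ∃ p ∈ Q, ∀ y ∈ Q, inner ℝ (x - p) (y - p) ≤ 0 := by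
    intro x
    obtain ⟨p, hp, h1⟩ := exists_norm_eq_iInf_of_complete_convex hne hQ hc x
    exact ⟨p, hp, (norm_eq_iInf_iff_real_inner_le_zero hc hp).1 h1⟩
  choose P hP hPi using hp
  set D : E → ℝ := fun x => ‖x - P x‖ ^ 2 / 2 with hD
  -- the two bounds
  have up : ∀ x y, D y - D x - inner ℝ (x - P x) (y - x) ≤ ‖y - x‖ ^ 2 / 2 := by
    intro x y
    have h1 : ‖y - P y‖ ≤ ‖y - P x‖ := by
      have h2 := hPi y (P x) (hP x)
      have h3 : ‖y - P x‖ ^ 2 = ‖y - P y‖ ^ 2 - 2 * inner ℝ (y - P y) (P x - P y) + ‖P x - P y‖ ^ 2 := by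
        rw [← norm_sub_sq_real]
        congr 2
        abel
      have h4 : ‖y - P y‖ ^ 2 ≤ ‖y - P x‖ ^ 2 := by nlinarith [sq_nonneg ‖P x - P y‖]
      exact le_of_sq_le_sq h4 (norm_nonneg _)
    have h5 : ‖y - P x‖ ^ 2 = ‖x - P x‖ ^ 2 + 2 * inner ℝ (x - P x) (y - x) + ‖y - x‖ ^ 2 := by
      rw [← norm_add_sq_real]
      congr 2
      abel
    have h6 : ‖y - P y‖ ^ 2 ≤ ‖y - P x‖ ^ 2 := by
      have := norm_nonneg (y - P y)
      nlinarith
    simp only [hD]
    linarith
  have key : ∀ x y, 0 ≤ inner ℝ ((x - P x) - (y - P y)) (P x - P y) := by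
    intro x y
    have h1 := hPi x (P y) (hP y)
    have h2 := hPi y (P x) (hP x)
    have h3 : inner ℝ (x - P x) (P y - P x) = -inner ℝ (x - P x) (P x - P y) := by
      rw [← inner_neg_right]
      congr 1
      abel
    rw [inner_sub_left]
    linarith
  have low : ∀ x y, 0 ≤ D y - D x - inner ℝ (x - P x) (y - x) := by
    intro x y
    have h1 := hPi x (P y) (hP y)
    have h2 : inner ℝ (x - P x) (y - x) = inner ℝ (x - P x) (y - P y) - ‖x - P x‖ ^ 2 +
        inner ℝ (x - P x) (P y - P x) := by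
      rw [← real_inner_self_eq_norm_sq, ← inner_sub_right, ← inner_add_right]
      congr 1
      abel
    have h3 : ‖(x - P x) - (y - P y)‖ ^ 2 = ‖x - P x‖ ^ 2 - 2 * inner ℝ (x - P x) (y - P y) + ‖y - P y‖ ^ 2 :=
      norm_sub_sq_real _ _
    have h4 := sq_nonneg ‖(x - P x) - (y - P y)‖
    simp only [hD]
    rw [h2]
    linarith
  have lip : ∀ x y, ‖(x - P x) - (y - P y)‖ ≤ ‖x - y‖ := by
    intro x y
    have h1 : ‖x - y‖ ^ 2 = ‖(x - P x) - (y - P y)‖ ^ 2 + 2 * inner ℝ ((x - P x) - (y - P y)) (P x - P y) +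
        ‖P x - P y‖ ^ 2 := by
      rw [← norm_add_sq_real]
      congr 2
      abel
    have h2 := key x y
    have h3 : ‖(x - P x) - (y - P y)‖ ^ 2 ≤ ‖x - y‖ ^ 2 := by nlinarith [sq_nonneg ‖P x - P y‖]
    exact le_of_sq_le_sq h3 (norm_nonneg _)
  -- the function
  set f : E → ℝ := fun x => μ / 2 * ‖x‖ ^ 2 + (L - μ) * D x with hf
  have grad : ∀ x, HasGradientAt f (L • x - (L - μ) • P x) x := by
    intro x
    refine hasGradientAt_of_bound (c := μ / 2 + (L - μ) / 2) fun y => ?_
    have h1 := up x y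
    have h2 := low x y
    have h3 : ‖y‖ ^ 2 = ‖x‖ ^ 2 + 2 * inner ℝ x (y - x) + ‖y - x‖ ^ 2 := by
      rw [← norm_add_sq_real]
      congr 2
      abel
    have h4 : inner ℝ (L • x - (L - μ) • P x) (y - x) = μ * inner ℝ x (y - x) + (L - μ) * inner ℝ (x - P x) (y - x) := by
      rw [inner_sub_left, inner_sub_left, real_inner_smul_left, real_inner_smul_left]
      ring
    have h5 : f y - f x - inner ℝ (L • x - (L - μ) • P x) (y - x) =
        μ / 2 * ‖y - x‖ ^ 2 + (L - μ) * (D y - D x - inner ℝ (x - P x) (y - x)) := by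
      rw [h4]
      simp only [hf]
      rw [h3]
      ring
    have h6 : 0 ≤ (L - μ) * (D y - D x - inner ℝ (x - P x) (y - x)) := mul_nonneg (by linarith) h2
    have h7 : (L - μ) * (D y - D x - inner ℝ (x - P x) (y - x)) ≤ (L - μ) * (‖y - x‖ ^ 2 / 2) :=
      mul_le_mul_of_nonneg_left h1 (by linarith)
    have h8 : 0 ≤ μ / 2 * ‖y - x‖ ^ 2 := by positivity
    rw [h5, abs_of_nonneg (by linarith)]
    linarith
  have hg : ∀ x, gradient f x = L • x - (L - μ) • P x := fun x => (grad x).gradient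
  refine ⟨f, ⟨fun x => (grad x).differentiableAt, ?_, ?_⟩, ?_⟩
  · rw [strongConvexOn_iff_convex]
    have e : (fun x => f x - μ / 2 * ‖x‖ ^ 2) = fun x => (L - μ) * D x := by
      ext x
      simp only [hf]
      ring
    rw [e]
    have hDc : ConvexOn ℝ univ D := by
      refine ⟨convex_univ, fun x _ y _ a b ha hb hab => ?_⟩
      set z := a • x + b • y with hz
      have h1 := low z x
      have h2 := low z y
      have h3 : a * inner ℝ (z - P z) (x - z) + b * inner ℝ (z - P z) (y - z) = 0 := by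
        rw [← real_inner_smul_right, ← real_inner_smul_right, ← inner_add_right]
        have : a • (x - z) + b • (y - z) = 0 := by
          have h4 : a • (x - z) + b • (y - z) = (a • x + b • y) - (a + b) • z := by
            rw [smul_sub, smul_sub, add_smul]
            abel
          rw [h4, hab, one_smul, ← hz, sub_self]
        rw [this, inner_zero_right]
      have h5 := mul_nonneg ha h1
      have h6 := mul_nonneg hb h2
      have h7 : D z = a * D z + b * D z := by rw [← add_mul, hab, one_mul]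
      show D z ≤ a • D x + b • D y
      rw [smul_eq_mul, smul_eq_mul]
      nlinarith
    exact hDc.smul (c := L - μ) (by linarith)
  · intro x y
    rw [hg, hg]
    have e : L • x - (L - μ) • P x - (L • y - (L - μ) • P y) =
        μ • (x - y) + (L - μ) • ((x - P x) - (y - P y)) := by
      module
    rw [e]
    calc ‖μ • (x - y) + (L - μ) • ((x - P x) - (y - P y))‖
        ≤ ‖μ • (x - y)‖ + ‖(L - μ) • ((x - P x) - (y - P y))‖ := norm_add_le _ _
      _ = μ * ‖x - y‖ + (L - μ) * ‖(x - P x) - (y - P y)‖ := by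
          rw [norm_smul, norm_smul, Real.norm_of_nonneg h0, Real.norm_of_nonneg (by linarith : 0 ≤ L - μ)]
      _ ≤ μ * ‖x - y‖ + (L - μ) * ‖x - y‖ := by
          have := mul_le_mul_of_nonneg_left (lip x y) (by linarith : 0 ≤ L - μ)
          linarith
      _ = L * ‖x - y‖ := by ring
  · intro x q hq h1
    have h2 : P x = q := by
      have h3 := h1 (P x) (hP x)
      have h4 := hPi x q hq
      have h5 : inner ℝ (x - q) (P x - q) + inner ℝ (x - P x) (q - P x) = ‖P x - q‖ ^ 2 := by
        rw [← real_inner_self_eq_norm_sq]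
        have h6 : inner ℝ (x - P x) (q - P x) = -inner ℝ (x - P x) (P x - q) := by
          rw [← inner_neg_right]
          congr 1
          abel
        rw [h6, ← sub_eq_add_neg, ← inner_sub_left]
        congr 1
        abel
      have h7 : ‖P x - q‖ = 0 := by
        have h8 : ‖P x - q‖ ^ 2 ≤ 0 := by linarith
        exact pow_eq_zero_iff (two_ne_zero) |>.1 (le_antisymm h8 (sq_nonneg _))
      exact sub_eq_zero.1 (norm_eq_zero.1 h7)
    rw [hg, h2]

end Pool.Agent.Q124.HB
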