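import Mathlib

/-!
# MP_5a160e_an: correlations of periodic sequences and the certificate
-/

open Finset

namespace Pool.Agent.Q124.HB

variable {K : ℕ} [NeZero K]

/-- correlation -/
noncomputable def R (x : ZMod K → ℝ) (d : ZMod K) : ℝ := ∑ t, x t * x (t + d)

theorem R_shift (x : ZMod K → ℝ) (a b : ZMod K) : ∑ t, x (t + a) * x (t + b) = R x (b - a) := by
  unfold R
  refine Fintype.sum_equiv (Equiv.addRight a) _ _ fun t => ?_
  simp only [Equiv.coe_addRight]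
  congr 2
  ring

theorem R_neg (x : ZMod K → ℝ) (d : ZMod K) : R x (-d) = R x d := by
  have h := R_shift x d 0
  rw [zero_sub] at h
  rw [← h]
  unfold R
  refine Finset.sum_congr rfl fun t _ => ?_
  rw [add_zero, mul_comm]

/-- two filters -/
theorem filt (x : ZMod K → ℝ) {n m : ℕ} (α : Fin n → ℝ) (a : Fin n → ZMod K) (γ : Fin m → ℝ) (c : Fin m → ZMod K) :
    ∑ t, (∑ i, α i * x (t + a i)) * (∑ j, γ j * x (t + c j)) = ∑ i, ∑ j, α i * γ j * R x (c j - a i) := by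
  simp_rw [Finset.sum_mul_sum]
  rw [Finset.sum_comm]
  refine Finset.sum_congr rfl fun i _ => ?_
  rw [Finset.sum_comm]
  refine Finset.sum_congr rfl fun j _ => ?_
  rw [← R_shift, Finset.mul_sum]
  refine Finset.sum_congr rfl fun t _ => ?_
  ring

/-- correlation of `u` and the shifted `v` -/
theorem uv (x : ZMod K → ℝ) (α₁ α₂ α₃ γ₁ γ₂ γ₃ : ℝ) (s : ZMod K) :
    ∑ t, (α₁ * x (t - 1) + α₂ * x t + α₃ * x (t + 1)) *
      (γ₁ * x (t + s - 1) + γ₂ * x (t + s) + γ₃ * x (t + s + 1)) =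
    (α₁ * γ₁ + α₂ * γ₂ + α₃ * γ₃) * R x s + (α₁ * γ₂ + α₂ * γ₃) * R x (s + 1)
      + (α₂ * γ₁ + α₃ * γ₂) * R x (s - 1) + α₁ * γ₃ * R x (s + 2) + α₃ * γ₁ * R x (s - 2) := by
  have h := filt x ![α₁, α₂, α₃] ![-1, 0, 1] ![γ₁, γ₂, γ₃] ![s - 1, s, s + 1]
  simp only [Fin.sum_univ_three, Matrix.cons_val] at h
  have e1 : s - 1 - -1 = s := by ring
  have e2 : s - -1 = s + 1 := by ring
  have e3 : s + 1 - -1 = s + 2 := by ring
  have e4 : s + 1 - 0 = s + 1 := by ring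
  have e5 : s - 1 - 0 = s - 1 := by ring
  have e6 : s - 1 - 1 = s - 2 := by ring
  have e7 : s + 1 - 1 = s := by ring
  have e8 : s - 0 = s := by ring
  rw [e1, e2, e3, e4, e5, e6, e7, e8] at h
  have h2 : ∑ t, (α₁ * x (t - 1) + α₂ * x t + α₃ * x (t + 1)) *
      (γ₁ * x (t + s - 1) + γ₂ * x (t + s) + γ₃ * x (t + s + 1)) =
      ∑ t, (α₁ * x (t + -1) + α₂ * x (t + 0) + α₃ * x (t + 1)) *
      (γ₁ * x (t + (s - 1)) + γ₂ * x (t + s) + γ₃ * x (t + (s + 1))) := by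
    refine Finset.sum_congr rfl fun t _ => ?_
    have f1 : t + s - 1 = t + (s - 1) := by ring
    have f2 : t + s + 1 = t + (s + 1) := by ring
    rw [f1, f2, add_zero, ← sub_eq_add_neg]
  rw [h2, h]
  ring

/-- the square -/
theorem ysq (x : ZMod K → ℝ) (φ : ℝ) :
    ∑ t, ((x (t + 5) + φ * x (t + 3) + x (t + 1)) - (x (t + 4) + φ * x (t + 2) + x t)) ^ 2 =
    (4 + 2 * φ ^ 2) * R x 0 - (4 + 4 * φ + 2 * φ ^ 2) * R x 1 + 8 * φ * R x 2 - (2 + 4 * φ) * R x 3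
      + 4 * R x 4 - 2 * R x 5 := by
  have h := filt x ![-1, 1, -φ, φ, -1, 1] ![0, 1, 2, 3, 4, 5] ![-1, 1, -φ, φ, -1, 1] ![0, 1, 2, 3, 4, 5]
  simp only [Fin.sum_univ_six, Matrix.cons_val] at h
  have h2 : ∑ t, ((x (t + 5) + φ * x (t + 3) + x (t + 1)) - (x (t + 4) + φ * x (t + 2) + x t)) ^ 2 =
      ∑ t, (-1 * x (t + 0) + 1 * x (t + 1) + -φ * x (t + 2) + φ * x (t + 3) + -1 * x (t + 4) + 1 * x (t + 5)) *
      (-1 * x (t + 0) + 1 * x (t + 1) + -φ * x (t + 2) + φ * x (t + 3) + -1 * x (t + 4) + 1 * x (t + 5)) := by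
    refine Finset.sum_congr rfl fun t _ => ?_
    rw [add_zero]
    ring
  rw [h2, h]
  have n1 := R_neg x 1
  have n2 := R_neg x 2
  have n3 := R_neg x 3
  have n4 := R_neg x 4
  have n5 := R_neg x 5
  have g : ∀ a b c : ZMod K, a - b = c → R x (a - b) = R x c := fun a b c h => by rw [h]
  rw [g 0 0 0 (by ring), g 1 0 1 (by ring), g 2 0 2 (by ring), g 3 0 3 (by ring), g 4 0 4 (by ring),
    g 5 0 5 (by ring), g 0 1 (-1) (by ring), g 1 1 0 (by ring), g 2 1 1 (by ring), g 3 1 2 (by ring),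
    g 4 1 3 (by ring), g 5 1 4 (by ring), g 0 2 (-2) (by ring), g 1 2 (-1) (by ring), g 2 2 0 (by ring),
    g 3 2 1 (by ring), g 4 2 2 (by ring), g 5 2 3 (by ring), g 0 3 (-3) (by ring), g 1 3 (-2) (by ring),
    g 2 3 (-1) (by ring), g 3 3 0 (by ring), g 4 3 1 (by ring), g 5 3 2 (by ring), g 0 4 (-4) (by ring),
    g 1 4 (-3) (by ring), g 2 4 (-2) (by ring), g 3 4 (-1) (by ring), g 4 4 0 (by ring), g 5 4 1 (by ring),
    g 0 5 (-5) (by ring), g 1 5 (-4) (by ring), g 2 5 (-3) (by ring), g 3 5 (-2) (by ring), g 4 5 (-1) (by ring),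
    g 5 5 0 (by ring), n1, n2, n3, n4, n5]
  ring

end Pool.Agent.Q124.HB
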