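import Pool.Agent.Q124.HB.Ten
import Pool.Agent.Q124.HB.Cor

/-!
# MP_5a160e_an: no cycles on the line

`line` : let the parameters `ℓ m β w` satisfy the relations of the certificate. A periodic sequence `x` of real
numbers for which `u t = (1+β-m) x t - β x (t-1) - x (t+1)` and `v t = (ℓ-1-β) x t + β x (t-1) + x (t+1)` are ordered in
the same way is constant.
-/

open Finset

namespace Pool.Agent.Q124.HB

variable {K : ℕ} [NeZero K]

/-- first sequence -/
def uu (m β : ℝ) (x : ZMod K → ℝ) (t : ZMod K) : ℝ := -β * x (t - 1) + (1 + β - m) * x t + -1 * x (t + 1)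
/-- second sequence -/
def vv (ℓ β : ℝ) (x : ZMod K → ℝ) (t : ZMod K) : ℝ := β * x (t - 1) + (ℓ - 1 - β) * x t + 1 * x (t + 1)

/-- the certificate -/
theorem cert {ℓ m β w φ : ℝ} (hφ : φ ^ 2 = φ + 1) (hw : 1 - 2 * φ ^ 2 * w + (φ - 1) ^ 2 * w ^ 2 = 0)
    (g1 : β * ℓ + m = 1 + β ^ 2)
    (g4 : (1 + w) * (ℓ + β * m - (1 + β) ^ 2 - 2 * β) + 4 * w * β * φ = 0)
    (gQ : (1 + β - m) * (ℓ - 1 - β) - β ^ 2 - 1 = β * (1 - w * (φ - 1) ^ 2)) (x : ZMod K → ℝ) :
    (∑ t, uu m β x t * vv ℓ β x t - ∑ t, uu m β x t * vv ℓ β x (t - 1)) +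
      w * (∑ t, uu m β x t * vv ℓ β x t - ∑ t, uu m β x t * vv ℓ β x (t + 3)) +
      w * β / 2 * ∑ t, ((x (t + 5) + φ * x (t + 3) + x (t + 1)) - (x (t + 4) + φ * x (t + 2) + x t)) ^ 2 = 0 := by
  have b0 := uv x (-β) (1 + β - m) (-1) β (ℓ - 1 - β) 1 0
  have b1 := uv x (-β) (1 + β - m) (-1) β (ℓ - 1 - β) 1 (-1)
  have b3 := uv x (-β) (1 + β - m) (-1) β (ℓ - 1 - β) 1 3
  have n1 := R_neg x 1
  have n2 := R_neg x 2
  have n3 := R_neg x 3
  have g : ∀ a c : ZMod K, a = c → R x a = R x c := fun a c h => by rw [h]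
  rw [g (0 + 1) 1 (by ring), g (0 - 1) (-1) (by ring), g (0 + 2) 2 (by ring), g (0 - 2) (-2) (by ring), n1, n2] at b0
  rw [g (-1 + 1) 0 (by ring), g (-1 - 1) (-2) (by ring), g (-1 + 2) 1 (by ring), g (-1 - 2) (-3) (by ring),
    n1, n2, n3] at b1
  rw [g (3 + 1) 4 (by ring), g (3 - 1) 2 (by ring), g (3 + 2) 5 (by ring), g (3 - 2) 1 (by ring)] at b3
  have c0 : ∑ t, uu m β x t * vv ℓ β x t = ∑ t, (-β * x (t - 1) + (1 + β - m) * x t + -1 * x (t + 1)) *
      (β * x (t + 0 - 1) + (ℓ - 1 - β) * x (t + 0) + 1 * x (t + 0 + 1)) := by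
    refine Finset.sum_congr rfl fun t _ => ?_
    rw [add_zero]
    rfl
  have c1 : ∑ t, uu m β x t * vv ℓ β x (t - 1) = ∑ t, (-β * x (t - 1) + (1 + β - m) * x t + -1 * x (t + 1)) *
      (β * x (t + -1 - 1) + (ℓ - 1 - β) * x (t + -1) + 1 * x (t + -1 + 1)) := by
    refine Finset.sum_congr rfl fun t _ => ?_
    rw [← sub_eq_add_neg]
    rfl
  have c3 : ∑ t, uu m β x t * vv ℓ β x (t + 3) = ∑ t, (-β * x (t - 1) + (1 + β - m) * x t + -1 * x (t + 1)) *
      (β * x (t + 3 - 1) + (ℓ - 1 - β) * x (t + 3) + 1 * x (t + 3 + 1)) := rfl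
  rw [c0, c1, c3, b0, b1, b3, ysq]
  linear_combination ((1 + w) * R x 0) * gQ + R x 0 * g1 - (β * R x 0) * hw - (2 * β * w * R x 0) * hφ
    - ((1 + w) * R x 1) * g1 - R x 1 * g4 - R x 1 * gQ + R x 2 * g4
    + (β * R x 3) * hw + (2 * w * β * R x 3) * hφ - (w * R x 3) * gQ + (w * R x 4) * g1

/-- if `u` or `v` vanishes then `x` vanishes -/
theorem zero_of {φ β a : ℝ} (hφ : 0 < φ) (hβ : β < 1) (x : ZMod K → ℝ)
    (hx : ∀ t, x (t + 4) + φ * x (t + 2) + x t = 0)
    (h : ∀ t, β * x (t - 1) + a * x t + 1 * x (t + 1) = 0) : ∀ t, x t = 0 := by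
  have h1 := uv x (-1) 0 1 β a 1 0
  have h2 : ∑ t, (-1 * x (t - 1) + 0 * x t + 1 * x (t + 1)) *
      (β * x (t + 0 - 1) + a * x (t + 0) + 1 * x (t + 0 + 1)) = 0 := by
    refine Finset.sum_eq_zero fun t _ => ?_
    rw [add_zero, h t, mul_zero]
  rw [h2] at h1
  have g : ∀ a c : ZMod K, a = c → R x a = R x c := fun a c h => by rw [h]
  rw [g (0 + 1) 1 (by ring), g (0 - 1) (-1) (by ring), g (0 + 2) 2 (by ring), g (0 - 2) (-2) (by ring),
    R_neg x 1, R_neg x 2] at h1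
  have h3 : R x 0 = R x 2 := by
    have : (1 - β) * (R x 0 - R x 2) = 0 := by linear_combination -h1
    rcases mul_eq_zero.1 this with h4 | h4
    · linarith
    · linarith
  have h5 : ∑ t, (x (t + 2) - x t) ^ 2 = 0 := by
    have e : ∀ t, (x (t + 2) - x t) ^ 2 = x (t + 2) * x (t + 2) - 2 * (x (t + 0) * x (t + 2)) + x (t + 0) * x (t + 0) := by
      intro t
      rw [add_zero]
      ring
    simp_rw [e]
    rw [Finset.sum_add_distrib, Finset.sum_sub_distrib, ← Finset.mul_sum, R_shift, R_shift, R_shift,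
      g (2 - 2) 0 (by ring), g (2 - 0) 2 (by ring), g (0 - 0) 0 (by ring)]
    linarith
  have h6 : ∀ t, x (t + 2) = x t := by
    intro t
    have := (Finset.sum_eq_zero_iff_of_nonneg (fun t _ => sq_nonneg (x (t + 2) - x t))).1 h5 t (mem_univ _)
    have := pow_eq_zero_iff (two_ne_zero) |>.1 this
    linarith
  intro t
  have h7 := hx t
  have e4 : t + 4 = t + 2 + 2 := by ring
  rw [e4, h6, h6] at h7
  have h8 : (2 + φ) * x t = 0 := by linear_combination h7
  rcases mul_eq_zero.1 h8 with h9 | h9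
  · linarith
  · exact h9

theorem mono_nonneg {ι : Type*} {f g : ι → ℝ} (h : Monovary f g) (i j : ι) : 0 ≤ (f i - f j) * (g i - g j) := by
  rcases lt_trichotomy (g i) (g j) with h1 | h1 | h1
  · have := h h1
    exact mul_nonneg_of_nonpos_of_nonpos (by linarith) (by linarith)
  · rw [h1, sub_self, mul_zero]
  · have := h h1
    exact mul_nonneg (by linarith) (by linarith)

theorem per10 {φ : ℝ} (hφ : φ ^ 2 = φ + 1) {F : ZMod K → ℝ} (hF : ∀ t, F (t + 4) + φ * F (t + 2) + F t = 0)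
    (t : ZMod K) : F (t + 10) = F t := by
  have a0 := hF t
  have a2 := hF (t + 2)
  have a4 := hF (t + 4)
  have a6 := hF (t + 6)
  have e1 : t + 2 + 4 = t + 6 := by ring
  have e2 : t + 2 + 2 = t + 4 := by ring
  have e3 : t + 4 + 4 = t + 8 := by ring
  have e4 : t + 4 + 2 = t + 6 := by ring
  have e5 : t + 6 + 4 = t + 10 := by ring
  have e6 : t + 6 + 2 = t + 8 := by ring
  rw [e1, e2] at a2
  rw [e3, e4] at a4
  rw [e5, e6] at a6
  linear_combination a6 - φ * a4 + φ * a2 - a0 + F (t + 6) * hφ - F (t + 4) * hφ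

theorem permod {φ : ℝ} (hφ : φ ^ 2 = φ + 1) {F : ZMod K → ℝ} (hF : ∀ t, F (t + 4) + φ * F (t + 2) + F t = 0)
    (n : ℕ) : F ((n % 10 : ℕ) : ZMod K) = F (n : ZMod K) := by
  have h : ∀ k : ℕ, ∀ t : ZMod K, F (t + ((10 * k : ℕ) : ZMod K)) = F t := by
    intro k
    induction k with
    | zero => intro t; simp
    | succ k ih =>
      intro t
      have e : t + ((10 * (k + 1) : ℕ) : ZMod K) = t + ((10 * k : ℕ) : ZMod K) + 10 := by
        push_cast
        ring
      rw [e, per10 hφ hF, ih]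
  have h2 := h (n / 10) ((n % 10 : ℕ) : ZMod K)
  rw [← Nat.cast_add, Nat.mod_add_div] at h2
  exact h2.symm

/-- no cycles on the line -/
theorem line {ℓ m β w φ : ℝ} (hφ1 : 1 < φ) (hφ2 : φ < 2) (hφ : φ ^ 2 = φ + 1)
    (hw : 1 - 2 * φ ^ 2 * w + (φ - 1) ^ 2 * w ^ 2 = 0) (hw0 : 0 < w) (hβ0 : 0 < β) (hβ1 : β < 1)
    (g1 : β * ℓ + m = 1 + β ^ 2)
    (g4 : (1 + w) * (ℓ + β * m - (1 + β) ^ 2 - 2 * β) + 4 * w * β * φ = 0)
    (gQ : (1 + β - m) * (ℓ - 1 - β) - β ^ 2 - 1 = β * (1 - w * (φ - 1) ^ 2)) (x : ZMod K → ℝ)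
    (hm : ∀ i j, 0 ≤ (uu m β x i - uu m β x j) * (vv ℓ β x i - vv ℓ β x j)) : ∀ t s, x t = x s := by
  have mono : Monovary (uu m β x) (vv ℓ β x) := by
    intro i j hij
    by_contra hc
    push Not at hc
    have := hm i j
    nlinarith [mul_pos (sub_pos.2 hc) (sub_pos.2 hij)]
  have s1 := mono.sum_mul_comp_perm_le_sum_mul (σ := Equiv.subRight (1 : ZMod K))
  have s3 := mono.sum_mul_comp_perm_le_sum_mul (σ := Equiv.addRight (3 : ZMod K))
  have q1 := mono.sum_mul_comp_perm_eq_sum_mul_iff (σ := Equiv.subRight (1 : ZMod K))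
  have q3 := mono.sum_mul_comp_perm_eq_sum_mul_iff (σ := Equiv.addRight (3 : ZMod K))
  simp only [Equiv.subRight_apply, Equiv.coe_addRight] at s1 s3 q1 q3
  have hc := cert hφ hw g1 g4 gQ x
  have hy : 0 ≤ ∑ t, ((x (t + 5) + φ * x (t + 3) + x (t + 1)) - (x (t + 4) + φ * x (t + 2) + x t)) ^ 2 :=
    Finset.sum_nonneg fun t _ => sq_nonneg _
  have hwb : 0 < w * β / 2 := by positivity
  have p1 := mul_nonneg hw0.le (sub_nonneg.2 s3)
  have p2 := mul_nonneg hwb.le hy
  have e1 := q1.1 (by linarith)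
  have e3 := q3.1 (by
    have : w * (∑ t, uu m β x t * vv ℓ β x t - ∑ t, uu m β x t * vv ℓ β x (t + 3)) = 0 := by linarith
    rcases mul_eq_zero.1 this with h | h
    · exact absurd h hw0.ne'
    · linarith)
  have ey : ∑ t, ((x (t + 5) + φ * x (t + 3) + x (t + 1)) - (x (t + 4) + φ * x (t + 2) + x t)) ^ 2 = 0 := by
    have : w * β / 2 * ∑ t, ((x (t + 5) + φ * x (t + 3) + x (t + 1)) - (x (t + 4) + φ * x (t + 2) + x t)) ^ 2 = 0 := by
      linarith
    rcases mul_eq_zero.1 this with h | h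
    · exact absurd h hwb.ne'
    · exact h
  have hy1 : ∀ t, x (t + 5) + φ * x (t + 3) + x (t + 1) = x (t + 4) + φ * x (t + 2) + x t := by
    intro t
    have := (Finset.sum_eq_zero_iff_of_nonneg (fun t _ => sq_nonneg
      ((x (t + 5) + φ * x (t + 3) + x (t + 1)) - (x (t + 4) + φ * x (t + 2) + x t)))).1 ey t (mem_univ _)
    have := pow_eq_zero_iff (two_ne_zero) |>.1 this
    linarith
  have hy2 : ∀ n : ℕ, x ((n : ZMod K) + 4) + φ * x ((n : ZMod K) + 2) + x (n : ZMod K) = x 4 + φ * x 2 + x 0 := by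
    intro n
    induction n with
    | zero => simp
    | succ n ih =>
      rw [← ih, ← hy1 (n : ZMod K)]
      push_cast
      have f1 : (n : ZMod K) + 1 + 4 = n + 5 := by ring
      have f2 : (n : ZMod K) + 1 + 2 = n + 3 := by ring
      rw [f1, f2]
  set c : ℝ := (x 4 + φ * x 2 + x 0) / (2 + φ) with hc0
  have hc1 : (2 + φ) * c = x 4 + φ * x 2 + x 0 := by
    rw [hc0]
    field_simp
  set X : ZMod K → ℝ := fun t => x t - c with hX
  have hXr : ∀ t, X (t + 4) + φ * X (t + 2) + X t = 0 := by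
    intro t
    have h := hy2 t.val
    rw [ZMod.natCast_zmod_val] at h
    simp only [hX]
    linear_combination h - hc1
  have hU : ∀ t, uu m β X t = uu m β x t + m * c := by
    intro t
    simp only [hX, uu]
    ring
  have hV : ∀ t, vv ℓ β X t = vv ℓ β x t - ℓ * c := by
    intro t
    simp only [hX, vv]
    ring
  have rU : ∀ t, uu m β X (t + 4) + φ * uu m β X (t + 2) + uu m β X t = 0 := by
    intro t
    have h1 := hXr (t - 1)
    have h2 := hXr t
    have h3 := hXr (t + 1)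
    have f1 : t - 1 + 4 = t + 4 - 1 := by ring
    have f2 : t - 1 + 2 = t + 2 - 1 := by ring
    have f3 : t + 1 + 4 = t + 4 + 1 := by ring
    have f4 : t + 1 + 2 = t + 2 + 1 := by ring
    rw [f1, f2] at h1
    rw [f3, f4] at h3
    unfold uu
    linear_combination -β * h1 + (1 + β - m) * h2 - h3
  have rV : ∀ t, vv ℓ β X (t + 4) + φ * vv ℓ β X (t + 2) + vv ℓ β X t = 0 := by
    intro t
    have h1 := hXr (t - 1)
    have h2 := hXr t
    have h3 := hXr (t + 1)
    have f1 : t - 1 + 4 = t + 4 - 1 := by ring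
    have f2 : t - 1 + 2 = t + 2 - 1 := by ring
    have f3 : t + 1 + 4 = t + 4 + 1 := by ring
    have f4 : t + 1 + 2 = t + 2 + 1 := by ring
    rw [f1, f2] at h1
    rw [f3, f4] at h3
    unfold vv
    linear_combination β * h1 + (ℓ - 1 - β) * h2 + h3
  have cast_add : ∀ (F : ZMod K → ℝ), (∀ t, F (t + 4) + φ * F (t + 2) + F t = 0) → ∀ i j : Fin 10,
      F (((i + j : Fin 10) : ℕ) : ZMod K) = F (((i : ℕ) : ZMod K) + ((j : ℕ) : ZMod K)) := by
    intro F hF i j
    rw [Fin.val_add, permod hφ hF]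
    push_cast
    rfl
  have v1 : (((1 : Fin 10) : ℕ) : ZMod K) = 1 := by simp
  have v2 : (((2 : Fin 10) : ℕ) : ZMod K) = 2 := by
    show ((2 : ℕ) : ZMod K) = 2
    norm_num
  have v4 : (((4 : Fin 10) : ℕ) : ZMod K) = 4 := by
    show ((4 : ℕ) : ZMod K) = 4
    norm_num
  have v7 : (((7 : Fin 10) : ℕ) : ZMod K) = 7 := by
    show ((7 : ℕ) : ZMod K) = 7
    norm_num
  have key := ten hφ1 hφ2 hφ (fun i : Fin 10 => uu m β X ((i : ℕ) : ZMod K))
    (fun i : Fin 10 => vv ℓ β X ((i : ℕ) : ZMod K))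
    (fun t => by
      show uu m β X _ + φ * uu m β X _ + uu m β X _ = 0
      rw [cast_add _ rU, cast_add _ rU, v4, v2]
      exact rU _)
    (fun t => by
      show vv ℓ β X _ + φ * vv ℓ β X _ + vv ℓ β X _ = 0
      rw [cast_add _ rV, cast_add _ rV, v4, v2]
      exact rV _)
    (fun i j => by
      show 0 ≤ (uu m β X _ - uu m β X _) * (vv ℓ β X _ - vv ℓ β X _)
      rw [hU, hU, hV, hV]
      have := hm ((i : ℕ) : ZMod K) ((j : ℕ) : ZMod K)
      linarith)
    (fun i j => by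
      show 0 ≤ (uu m β X _ - uu m β X _) * (vv ℓ β X _ - vv ℓ β X _)
      rw [cast_add _ rU, cast_add _ rU, v1, hU, hU, hV, hV]
      have := mono_nonneg e1 (((i : ℕ) : ZMod K) + 1) (((j : ℕ) : ZMod K) + 1)
      simp only [Function.comp, Equiv.subRight_apply, add_sub_cancel_right] at this
      linarith)
    (fun i j => by
      show 0 ≤ (uu m β X _ - uu m β X _) * (vv ℓ β X _ - vv ℓ β X _)
      rw [cast_add _ rU, cast_add _ rU, v7, ← per10 hφ rV ((i : ℕ) : ZMod K), ← per10 hφ rV ((j : ℕ) : ZMod K),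
        hU, hU, hV, hV]
      have := mono_nonneg e3 (((i : ℕ) : ZMod K) + 7) (((j : ℕ) : ZMod K) + 7)
      simp only [Function.comp, Equiv.coe_addRight] at this
      have f1 : ((i : ℕ) : ZMod K) + 7 + 3 = ((i : ℕ) : ZMod K) + 10 := by ring
      have f2 : ((j : ℕ) : ZMod K) + 7 + 3 = ((j : ℕ) : ZMod K) + 10 := by ring
      rw [f1, f2] at this
      linarith)
  have hX0 : ∀ t, X t = 0 := by
    rcases key with h | h
    · have h' : ∀ t : ZMod K, uu m β X t = 0 := by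
        intro t
        have h2 := h ⟨t.val % 10, Nat.mod_lt _ (by norm_num)⟩
        simp only at h2
        rw [permod hφ rU, ZMod.natCast_zmod_val] at h2
        exact h2
      refine zero_of (φ := φ) (β := β) (a := -(1 + β - m)) (by linarith) hβ1 X hXr fun t => ?_
      have := h' t
      unfold uu at this
      linarith
    · have h' : ∀ t : ZMod K, vv ℓ β X t = 0 := by
        intro t
        have h2 := h ⟨t.val % 10, Nat.mod_lt _ (by norm_num)⟩
        simp only at h2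
        rw [permod hφ rV, ZMod.natCast_zmod_val] at h2
        exact h2
      exact zero_of (φ := φ) (β := β) (a := ℓ - 1 - β) (by linarith) hβ1 X hXr h'
  intro t s
  have h1 := hX0 t
  have h2 := hX0 s
  simp only [hX] at h1 h2
  linarith

end Pool.Agent.Q124.HB
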