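import Pool.Agent.Q124.HB.Conv
import Pool.Agent.Q124.HB.One

/-!
# MP_5a160e_an: there is no cycle in dimension one
-/

open Set

namespace Pool.Agent.Q124.HB

/-- interpolation in dimension one -/
theorem como {m ℓ a g : ℝ} (h1 : m * a ^ 2 ≤ g * a) (h2 : |g| ≤ ℓ * |a|) : 0 ≤ (g - m * a) * (ℓ * a - g) := by
  rcases lt_trichotomy a 0 with ha | ha | ha
  · rw [abs_of_neg ha] at h2
    have h3 := neg_le_of_abs_le h2
    have h4 : g - m * a ≤ 0 := by
      by_contra h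
      push Not at h
      nlinarith
    have h5 : ℓ * a - g ≤ 0 := by linarith
    exact mul_nonneg_of_nonpos_of_nonpos h4 h5
  · subst ha
    rw [abs_zero, mul_zero] at h2
    have : g = 0 := abs_eq_zero.1 (le_antisymm h2 (abs_nonneg _))
    simp [this]
  · rw [abs_of_pos ha] at h2
    have h3 := le_of_abs_le h2
    have h4 : 0 ≤ g - m * a := by
      by_contra h
      push Not at h
      nlinarith
    have h5 : 0 ≤ ℓ * a - g := by linarith
    exact mul_nonneg h4 h5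

/-- no cycle in dimension one -/
theorem no_cycle1 {ℓ m β w φ : ℝ} (hφ1 : 1 < φ) (hφ2 : φ < 2) (hφ : φ ^ 2 = φ + 1)
    (hw : 1 - 2 * φ ^ 2 * w + (φ - 1) ^ 2 * w ^ 2 = 0) (hw0 : 0 < w) (hβ0 : 0 < β) (hβ1 : β < 1)
    (g1 : β * ℓ + m = 1 + β ^ 2)
    (g4 : (1 + w) * (ℓ + β * m - (1 + β) ^ 2 - 2 * β) + 4 * w * β * φ = 0)
    (gQ : (1 + β - m) * (ℓ - 1 - β) - β ^ 2 - 1 = β * (1 - w * (φ - 1) ^ 2)) (K : ℕ) (hK : 3 ≤ K) :
    ¬ HasCycle m ℓ 1 β 1 K := by
  rintro ⟨f, x, hf, hper, ⟨s0, t0, hne⟩, hrec⟩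
  have : NeZero K := ⟨by omega⟩
  set X : ZMod K → ℝ := fun t => (x t.val) 0 with hX
  have hXn : ∀ n : ℕ, X (n : ZMod K) = (x n) 0 := by
    intro n
    simp only [hX, ZMod.val_natCast]
    have hp : Function.Periodic x K := hper
    rw [hp.map_mod_nat]
  -- the gradients
  have hu : ∀ t : ZMod K, ∃ n : ℕ, uu m β X t = (gradient f (x n)) 0 - m * (x n) 0 ∧
      vv ℓ β X t = ℓ * (x n) 0 - (gradient f (x n)) 0 := by
    intro t
    obtain ⟨a, ha⟩ : ∃ a : ℕ, (a : ZMod K) = t - 1 := ⟨(t - 1).val, ZMod.natCast_zmod_val _⟩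
    have e1 : t = ((a + 1 : ℕ) : ZMod K) := by
      push_cast
      rw [ha]
      ring
    have e2 : t + 1 = ((a + 2 : ℕ) : ZMod K) := by
      push_cast
      rw [ha]
      ring
    have e3 := congrArg (fun z : EuclideanSpace ℝ (Fin 1) => z 0) (hrec a)
    simp only [PiLp.add_apply, PiLp.sub_apply, PiLp.smul_apply, smul_eq_mul, one_mul] at e3
    refine ⟨a + 1, ?_, ?_⟩
    · unfold uu
      rw [← ha, e2, hXn, hXn, e1, hXn, e3]
      ring
    · unfold vv
      rw [← ha, e2, hXn, hXn, e1, hXn, e3]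
      ring
  have hm : ∀ i j : ZMod K, 0 ≤ (uu m β X i - uu m β X j) * (vv ℓ β X i - vv ℓ β X j) := by
    intro i j
    obtain ⟨n, u1, v1⟩ := hu i
    obtain ⟨k, u2, v2⟩ := hu j
    rw [u1, u2, v1, v2]
    have h1 := mono_of_class hf (x n) (x k)
    have h2 := hf.2.2 (x n) (x k)
    have nrm : ∀ z : EuclideanSpace ℝ (Fin 1), ‖z‖ = |z 0| := by
      intro z
      rw [EuclideanSpace.norm_eq, Fin.sum_univ_one, Real.norm_eq_abs, sq_abs, Real.sqrt_sq_eq_abs]
    have inr : ∀ y z : EuclideanSpace ℝ (Fin 1), inner ℝ y z = y 0 * z 0 := by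
      intro y z
      rw [PiLp.inner_apply, Fin.sum_univ_one]
      simp only [RCLike.inner_apply, conj_trivial]
      ring
    rw [nrm, inr, sq_abs] at h1
    rw [nrm, nrm] at h2
    simp only [PiLp.sub_apply] at h1 h2
    have h3 := como h1 h2
    convert h3 using 1
    ring
  have hl := line hφ1 hφ2 hφ hw hw0 hβ0 hβ1 g1 g4 gQ X hm
  apply hne
  ext i
  have hi : i = 0 := Subsingleton.elim _ _
  rw [hi, ← hXn, ← hXn]
  exact hl _ _

end Pool.Agent.Q124.HB
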