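import Mathlib

/-!
# MP_5a160e_an: the correlations of the cycle in dimension four
-/

namespace Pool.Agent.Q124.HB

/-- correlation of the cycle -/
noncomputable def RR (p q : ℝ) (y : ℝ) : ℝ :=
  p * Real.cos (y * (2 * Real.pi / 5)) + q * Real.cos (y * (3 * Real.pi / 5))

theorem RR_neg (p q y : ℝ) : RR p q (-y) = RR p q y := by
  unfold RR
  rw [neg_mul, neg_mul, Real.cos_neg, Real.cos_neg]

theorem RR_per (p q y : ℝ) : RR p q (y + 10) = RR p q y := by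
  unfold RR
  have e1 : (y + 10) * (2 * Real.pi / 5) = y * (2 * Real.pi / 5) + (2 : ℕ) * (2 * Real.pi) := by
    push_cast
    ring
  have e2 : (y + 10) * (3 * Real.pi / 5) = y * (3 * Real.pi / 5) + (3 : ℕ) * (2 * Real.pi) := by
    push_cast
    ring
  rw [e1, e2, Real.cos_add_nat_mul_two_pi, Real.cos_add_nat_mul_two_pi]

theorem cos1 : Real.cos (2 * Real.pi / 5) = ((1 + Real.sqrt 5) / 2 - 1) / 2 := by
  have h5 : Real.sqrt 5 ^ 2 = 5 := Real.sq_sqrt (by norm_num)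
  have e : 2 * Real.pi / 5 = 2 * (Real.pi / 5) := by ring
  rw [e, Real.cos_two_mul, Real.cos_pi_div_five]
  linear_combination (1 / 8) * h5

theorem cos2 : Real.cos (3 * Real.pi / 5) = -(((1 + Real.sqrt 5) / 2 - 1) / 2) := by
  have e : 3 * Real.pi / 5 = Real.pi - 2 * Real.pi / 5 := by ring
  rw [e, Real.cos_pi_sub, cos1]

theorem RR_rec (p q y : ℝ) : RR p q (y + 2) + (1 + Real.sqrt 5) / 2 * RR p q y + RR p q (y - 2) = 0 := by
  have h5 : Real.sqrt 5 ^ 2 = 5 := Real.sq_sqrt (by norm_num)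
  have g : ∀ θ : ℝ, Real.cos ((y + 2) * θ) + Real.cos ((y - 2) * θ) =
      2 * (2 * Real.cos θ ^ 2 - 1) * Real.cos (y * θ) := by
    intro θ
    have e1 : (y + 2) * θ = y * θ + 2 * θ := by ring
    have e2 : (y - 2) * θ = y * θ - 2 * θ := by ring
    rw [e1, e2, Real.cos_add, Real.cos_sub, Real.cos_two_mul]
    ring
  have g1 := g (2 * Real.pi / 5)
  have g2 := g (3 * Real.pi / 5)
  rw [cos1] at g1
  rw [cos2] at g2
  unfold RR
  linear_combination p * g1 + q * g2 + (p * Real.cos (y * (2 * Real.pi / 5)) + q * Real.cos (y * (3 * Real.pi / 5))) / 4 * h5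

/-- the values -/
theorem RR_vals {φ : ℝ} (hφ5 : φ = (1 + Real.sqrt 5) / 2) (hφ : φ ^ 2 = φ + 1) (p q : ℝ) :
    RR p q 0 = p + q ∧ RR p q 1 = (φ - 1) / 2 * (p - q) ∧ RR p q 2 = -(φ / 2) * (p + q) ∧
    RR p q 3 = -(φ / 2) * (p - q) ∧ RR p q 4 = (φ - 1) / 2 * (p + q) ∧ RR p q 5 = p - q := by
  have r := RR_rec p q
  rw [← hφ5] at r
  have h0 : RR p q 0 = p + q := by
    unfold RR
    simp
  have h1 : RR p q 1 = (φ - 1) / 2 * (p - q) := by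
    unfold RR
    rw [one_mul, one_mul, cos1, cos2, hφ5]
    ring
  have h2 : RR p q 2 = -(φ / 2) * (p + q) := by
    have a := r 0
    have e : (0 : ℝ) - 2 = -2 := by norm_num
    rw [e, RR_neg, zero_add, h0] at a
    linear_combination (1 / 2) * a
  have h3 : RR p q 3 = -(φ / 2) * (p - q) := by
    have a := r 1
    have e : (1 : ℝ) - 2 = -1 := by norm_num
    have e' : (1 : ℝ) + 2 = 3 := by norm_num
    rw [e, e', RR_neg, h1] at a
    linear_combination a + (-(p - q) / 2) * hφ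
  have h4 : RR p q 4 = (φ - 1) / 2 * (p + q) := by
    have a := r 2
    have e : (2 : ℝ) - 2 = 0 := by norm_num
    have e' : (2 : ℝ) + 2 = 4 := by norm_num
    rw [e, e', h0, h2] at a
    linear_combination a + ((p + q) / 2) * hφ
  have h5 : RR p q 5 = p - q := by
    have a := r 3
    have e : (3 : ℝ) - 2 = 1 := by norm_num
    have e' : (3 : ℝ) + 2 = 5 := by norm_num
    rw [e, e', h1, h3] at a
    linear_combination a + ((p - q) / 2) * hφ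
  exact ⟨h0, h1, h2, h3, h4, h5⟩

theorem nbw {φ w : ℝ} (f1 : 1.618 < φ) (f2 : φ < 1.6181) (hφ : φ ^ 2 = φ + 1) (w1 : 0.1935 < w) (w2 : w < 0.1941) :
    0.0738 < w * (φ - 1) ^ 2 ∧ w * (φ - 1) ^ 2 < 0.0743 := by
  have e : (φ - 1) ^ 2 = 2 - φ := by linear_combination hφ
  rw [e]
  constructor
  · nlinarith [mul_pos (sub_pos.2 f2) (sub_pos.2 w1)]
  · nlinarith [mul_pos (sub_pos.2 f1) (sub_pos.2 w2)]

theorem nbt {φ w τ : ℝ} (f1 : 1.618 < φ) (f2 : φ < 1.6181) (w1 : 0.1935 < w) (w2 : w < 0.1941)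
    (hτ : (1 + w) * τ = 4 * w * φ) : 1.049 < τ ∧ τ < 1.0525 := by
  have hw0 : 0 < 1 + w := by linarith
  have e : τ = 4 * w * φ / (1 + w) := by
    rw [eq_div_iff hw0.ne']
    linarith
  rw [e]
  constructor
  · rw [lt_div_iff₀ hw0]
    nlinarith [mul_pos (sub_pos.2 f1) (sub_pos.2 w1)]
  · rw [div_lt_iff₀ hw0]
    nlinarith [mul_pos (sub_pos.2 f2) (sub_pos.2 w2)]

theorem nbP {φ τ κ : ℝ} (f1 : 1.618 < φ) (f2 : φ < 1.6181) (t1 : 1.049 < τ) (t2 : τ < 1.0525)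
    (k1 : 2.5437 < κ) (k2 : κ < 2.5443) :
    2.37 < φ / 2 * κ + (φ - 1) / 2 * τ ∧ φ / 2 * κ + (φ - 1) / 2 * τ < 2.39 := by
  constructor
  · nlinarith [mul_pos (sub_pos.2 f1) (sub_pos.2 k1), mul_pos (sub_pos.2 f1) (sub_pos.2 t1)]
  · nlinarith [mul_pos (sub_pos.2 f2) (sub_pos.2 k1), mul_pos (sub_pos.2 f2) (sub_pos.2 t1)]

theorem nbD {φ τ κ : ℝ} (f1 : 1.618 < φ) (f2 : φ < 1.6181) (t1 : 1.049 < τ) (t2 : τ < 1.0525)
    (k1 : 2.5437 < κ) (k2 : κ < 2.5443) :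
    -1.17 < -(κ - (φ - 1) - (2 - τ) * φ / 2) ∧ -(κ - (φ - 1) - (2 - τ) * φ / 2) < -1.15 := by
  constructor
  · nlinarith [mul_pos (sub_pos.2 f1) (sub_pos.2 t1), mul_pos (sub_pos.2 f1) (sub_pos.2 t2)]
  · nlinarith [mul_pos (sub_pos.2 f2) (sub_pos.2 t1), mul_pos (sub_pos.2 f2) (sub_pos.2 t2)]

/-- the second equality -/
theorem e9aux {φ w τ κ : ℝ} (hφ : φ ^ 2 = φ + 1) (hw : 1 - 2 * φ ^ 2 * w + (φ - 1) ^ 2 * w ^ 2 = 0)
    (hw0 : 0 < 1 + w) (hτ : (1 + w) * τ = 4 * w * φ) (hκ : κ = 1 + φ - w * (φ - 1) ^ 2) :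
    (φ / 2 * κ + (φ - 1) / 2 * τ) * (κ - 2 - (2 - τ) * φ / 2) -
      (φ - 1) / 2 * (κ - τ) * (-(κ - (φ - 1) - (2 - τ) * φ / 2)) = 0 := by
  have h : (1 + w) ^ 2 * ((φ / 2 * κ + (φ - 1) / 2 * τ) * (κ - 2 - (2 - τ) * φ / 2) -
      (φ - 1) / 2 * (κ - τ) * (-(κ - (φ - 1) - (2 - τ) * φ / 2))) = 0 := by
    have h1 : (1 + w) ^ 2 * ((φ / 2 * κ + (φ - 1) / 2 * τ) * (κ - 2 - (2 - τ) * φ / 2) -
      (φ - 1) / 2 * (κ - τ) * (-(κ - (φ - 1) - (2 - τ) * φ / 2))) =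
      (φ / 2 * κ * (1 + w) + (φ - 1) / 2 * ((1 + w) * τ)) *
        ((κ - 2) * (1 + w) - φ / 2 * (2 * (1 + w) - (1 + w) * τ)) +
      (φ - 1) / 2 * (κ * (1 + w) - (1 + w) * τ) *
        ((κ - (φ - 1)) * (1 + w) - φ / 2 * (2 * (1 + w) - (1 + w) * τ)) := by ring
    rw [h1, hτ, hκ]
    linear_combination (-(1 + φ / 2 + (3 - φ) * w + (2 - 3 / 2 * φ) * w ^ 2)) * hw +
      ((-5/2)*w + (-9/2)*w^2 + (-7/2)*w^3 + (-3/2)*w^4 + (-1/2)*φ + 2*φ*w + (15/2)*φ*w^2 + 9*φ*w^3 + 4*φ*w^4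
        + (3/2)*φ^2*w + (1/2)*φ^2*w^2 + (-9/2)*φ^2*w^3 + (-7/2)*φ^2*w^4 - φ^3*w^2 + φ^3*w^4) * hφ
  rcases mul_eq_zero.1 h with h | h
  · exact absurd h (by positivity)
  · exact h

/-- the numerical part of the inequalities -/
theorem numeric {φ τ κ P D : ℝ} (f1 : 1.618 < φ) (f2 : φ < 1.6181) (t1 : 1.049 < τ) (t2 : τ < 1.0525)
    (k1 : 2.5437 < κ) (k2 : κ < 2.5443) (P1 : 2.37 < P) (P2 : P < 2.39) (D1 : 1.15 < D) (D2 : D < 1.17) :
    (κ * ((φ - 1) / 2 * (-D)) + 2 * (-(φ / 2) * P) - (2 - τ) * P ≤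
      κ * P + 2 * ((φ - 1) / 2 * (-D)) - (2 - τ) * ((φ - 1) / 2 * (-D))) ∧
    (κ * (-(φ / 2) * P) + 2 * (-(φ / 2) * (-D)) - (2 - τ) * ((φ - 1) / 2 * (-D)) ≤
      κ * P + 2 * ((φ - 1) / 2 * (-D)) - (2 - τ) * ((φ - 1) / 2 * (-D))) ∧
    (κ * ((φ - 1) / 2 * P) + 2 * (-D) - (2 - τ) * (-(φ / 2) * (-D)) ≤
      κ * P + 2 * ((φ - 1) / 2 * (-D)) - (2 - τ) * ((φ - 1) / 2 * (-D))) ∧
    (κ * (-D) + 2 * ((φ - 1) / 2 * P) - (2 - τ) * ((φ - 1) / 2 * P) ≤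
      κ * P + 2 * ((φ - 1) / 2 * (-D)) - (2 - τ) * ((φ - 1) / 2 * (-D))) ∧
    (κ * ((φ - 1) / 2 * P) + 2 * (-(φ / 2) * (-D)) - (2 - τ) * (-D) ≤
      κ * P + 2 * ((φ - 1) / 2 * (-D)) - (2 - τ) * ((φ - 1) / 2 * (-D))) ∧
    (κ * (-(φ / 2) * (-D)) + 2 * (-(φ / 2) * P) - (2 - τ) * ((φ - 1) / 2 * P) ≤
      κ * P + 2 * ((φ - 1) / 2 * (-D)) - (2 - τ) * ((φ - 1) / 2 * (-D))) ∧
    (κ * (-(φ / 2) * P) + 2 * ((φ - 1) / 2 * (-D)) - (2 - τ) * (-(φ / 2) * (-D)) ≤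
      κ * P + 2 * ((φ - 1) / 2 * (-D)) - (2 - τ) * ((φ - 1) / 2 * (-D))) := by
  have a1 : (2.5437 : ℝ) * 2.37 < κ * P := mul_lt_mul'' k1 P1 (by norm_num) (by norm_num)
  have a2 : κ * P < 2.5443 * 2.39 := mul_lt_mul'' k2 P2 (by linarith) (by linarith)
  have a3 : τ * D < 1.0525 * 1.17 := mul_lt_mul'' t2 D2 (by linarith) (by linarith)
  have a4 : (φ - 1) * (τ * D) < 0.6181 * (1.0525 * 1.17) :=
    mul_lt_mul'' (by linarith) a3 (by linarith) (by nlinarith)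
  have a5 : φ * D < 1.6181 * 1.17 := mul_lt_mul'' f2 D2 (by linarith) (by linarith)
  have a6 : (2 - τ) * D < 0.951 * 1.17 := mul_lt_mul'' (by linarith) D2 (by linarith) (by linarith)
  have a7 : (φ - 1) * (κ * P) < 0.6181 * (2.5443 * 2.39) :=
    mul_lt_mul'' (by linarith) a2 (by linarith) (by nlinarith)
  have a8 : (φ - 1) * ((2 - τ) * D) < 0.6181 * (0.951 * 1.17) :=
    mul_lt_mul'' (by linarith) a6 (by linarith) (by nlinarith)
  have a9 : (φ - 1) * P < 0.6181 * 2.39 := mul_lt_mul'' (by linarith) P2 (by linarith) (by linarith)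
  have a10 : κ * D < 2.5443 * 1.17 := mul_lt_mul'' k2 D2 (by linarith) (by linarith)
  have a11 : φ * (κ * D) < 1.6181 * (2.5443 * 1.17) := mul_lt_mul'' f2 a10 (by linarith) (by nlinarith)
  have hφ : 0 < φ := by linarith
  have hψ : 0 < φ - 1 := by linarith
  have hκ : 0 < κ := by linarith
  have hP : 0 < P := by linarith
  have hD : 0 < D := by linarith
  have hτ : 0 < 2 - τ := by linarith
  have hτ' : 0 < τ := by linarith
  have b1 : 0 < κ * ((φ - 1) * D) := by positivity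
  have b2 : 0 < φ * P := by positivity
  have b3 : 0 < (2 - τ) * P := by positivity
  have b4 : 0 < φ * (κ * P) := by positivity
  have b5 : 0 < (2 - τ) * (φ * D) := by positivity
  have b6 : 0 < κ * D := by positivity
  have b7 : 0 < (2 - τ) * ((φ - 1) * P) := by positivity
  have b8 : 0 < (φ - 1) * D := by positivity
  norm_num at a1 a2 a3 a4 a5 a6 a7 a8 a9 a10 a11
  refine ⟨?_, ?_, ?_, ?_, ?_, ?_, ?_⟩
  · linarith
  · linarith
  · linarith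
  · linarith
  · linarith
  · linarith
  · linarith

/-- the ten inequalities (two of them equalities) -/
theorem hval {φ w τ κ P D : ℝ} (f1 : 1.618 < φ) (f2 : φ < 1.6181) (hφ5 : φ = (1 + Real.sqrt 5) / 2)
    (hφ : φ ^ 2 = φ + 1)
    (w1 : 0.1935 < w) (w2 : w < 0.1941) (hw : 1 - 2 * φ ^ 2 * w + (φ - 1) ^ 2 * w ^ 2 = 0)
    (hτ : (1 + w) * τ = 4 * w * φ) (hκ : κ = 1 + φ - w * (φ - 1) ^ 2)
    (hP : P = φ / 2 * κ + (φ - 1) / 2 * τ) (hD : D = -(κ - (φ - 1) - (2 - τ) * φ / 2)) :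
    0 < (P + D) / 2 ∧ 0 < (P - D) / 2 ∧ ∀ n : ℤ,
    κ * RR ((P + D) / 2) ((P - D) / 2) n + 2 * RR ((P + D) / 2) ((P - D) / 2) (n + 1)
      - (2 - τ) * RR ((P + D) / 2) ((P - D) / 2) (n - 1) ≤
    κ * RR ((P + D) / 2) ((P - D) / 2) 0 + 2 * RR ((P + D) / 2) ((P - D) / 2) 1
      - (2 - τ) * RR ((P + D) / 2) ((P - D) / 2) 1 := by
  obtain ⟨v0, v1, v2, v3, v4, v5⟩ := RR_vals hφ5 hφ ((P + D) / 2) ((P - D) / 2)
  have s1 : (P + D) / 2 + (P - D) / 2 = P := by ring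
  have s2 : (P + D) / 2 - (P - D) / 2 = D := by ring
  rw [s1] at v0 v2 v4
  rw [s2] at v1 v3 v5
  set r : ℝ → ℝ := RR ((P + D) / 2) ((P - D) / 2) with hr
  have per : ∀ y, r (y + 10) = r y := fun y => RR_per _ _ y
  have neg : ∀ y, r (-y) = r y := fun y => RR_neg _ _ y
  have v6 : r 6 = (φ - 1) / 2 * P := by
    have a := per (-4)
    rw [neg] at a
    norm_num at a
    rw [a, v4]
  have v7 : r 7 = -(φ / 2) * D := by
    have a := per (-3)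
    rw [neg] at a
    norm_num at a
    rw [a, v3]
  have v8 : r 8 = -(φ / 2) * P := by
    have a := per (-2)
    rw [neg] at a
    norm_num at a
    rw [a, v2]
  have v9 : r 9 = (φ - 1) / 2 * D := by
    have a := per (-1)
    rw [neg] at a
    norm_num at a
    rw [a, v1]
  have v10 : r 10 = P := by
    have a := per 0
    norm_num at a
    rw [a, v0]
  have vm : r (-1) = (φ - 1) / 2 * D := by rw [neg, v1]
  -- numerical bounds
  have hw0 : 0 < 1 + w := by linarith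
  obtain ⟨t1, t2⟩ := nbt f1 f2 w1 w2 hτ
  obtain ⟨q1, q2⟩ := nbw f1 f2 hφ w1 w2
  have k1 : 2.5437 < κ := by rw [hκ]; linarith
  have k2 : κ < 2.5443 := by rw [hκ]; linarith
  obtain ⟨P1, P2⟩ := nbP f1 f2 t1 t2 k1 k2
  obtain ⟨D1, D2⟩ := nbD f1 f2 t1 t2 k1 k2
  have e9 := e9aux hφ hw hw0 hτ hκ
  rw [← hP] at P1 P2 e9
  rw [← hD] at D1 D2 e9
  refine ⟨by linarith, by linarith, ?_⟩
  have hn := numeric f1 f2 t1 t2 k1 k2 P1 P2 (D := -D) (by linarith) (by linarith)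
  rw [neg_neg] at hn
  obtain ⟨n1, n2, n4, n5, n6, n7, n8⟩ := hn
  have e3 : P * (κ - (φ - 1) - (2 - τ) * φ / 2) + (φ / 2 * κ + (φ - 1) / 2 * τ) * D = 0 := by
    rw [← hP, hD]
    ring
  have hfin : ∀ j : ℤ, 0 ≤ j → j < 10 →
      κ * r j + 2 * r (j + 1) - (2 - τ) * r (j - 1) ≤ κ * r 0 + 2 * r 1 - (2 - τ) * r 1 := by
    intro j j0 j1
    interval_cases j
    · norm_num
      rw [vm, v1]
      linarith
    · norm_num
      rw [v1, v2, v0]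
      linarith [n1]
    · norm_num
      rw [v1, v2, v3, v0]
      linarith [n2]
    · norm_num
      rw [v3, v4, v2, v0, v1]
      linarith
    · norm_num
      rw [v4, v5, v3, v0, v1]
      linarith [n4]
    · norm_num
      rw [v5, v6, v4, v0, v1]
      linarith [n5]
    · norm_num
      rw [v6, v7, v5, v0, v1]
      linarith [n6]
    · norm_num
      rw [v7, v8, v6, v0, v1]
      linarith [n7]
    · norm_num
      rw [v8, v9, v7, v0, v1]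
      linarith [n8]
    · norm_num
      rw [v9, v10, v8, v0, v1]
      linarith
  intro n
  have hp : Function.Periodic (fun m : ℤ => κ * r m + 2 * r (m + 1) - (2 - τ) * r (m - 1)) 10 := by
    intro m
    show κ * r ((m + 10 : ℤ) : ℝ) + 2 * r (((m + 10 : ℤ) : ℝ) + 1) - (2 - τ) * r (((m + 10 : ℤ) : ℝ) - 1) = _
    push_cast
    have e1 : (m : ℝ) + 10 + 1 = (m + 1) + 10 := by ring
    have e2 : (m : ℝ) + 10 - 1 = (m - 1) + 10 := by ring
    rw [e1, e2, per, per, per]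
  have h1 := hp.int_mul (n / 10) (n % 10)
  have h1e : n % 10 + (n / 10) * 10 = n := by omega
  simp only [Int.cast_id] at h1
  rw [h1e] at h1
  have h2 := hfin (n % 10) (Int.emod_nonneg _ (by norm_num)) (Int.emod_lt_of_pos _ (by norm_num))
  have h3 : κ * r (n : ℝ) + 2 * r ((n : ℝ) + 1) - (2 - τ) * r ((n : ℝ) - 1) =
      κ * r ((n % 10 : ℤ) : ℝ) + 2 * r (((n % 10 : ℤ) : ℝ) + 1) - (2 - τ) * r (((n % 10 : ℤ) : ℝ) - 1) := h1
  rw [h3]
  exact h2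

end Pool.Agent.Q124.HB
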