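import Pool.Agent.Q124.HB.Conv
import Pool.Agent.Q124.HB.Ineq

/-!
# MP_5a160e_an: the cycle of length ten in dimension four
-/

open Set

namespace Pool.Agent.Q124.HB

/-- the points of the cycle -/
noncomputable def XX (p q : ℝ) (t : ℝ) : EuclideanSpace ℝ (Fin 4) :=
  !₂[Real.sqrt p * Real.cos (t * (2 * Real.pi / 5)), Real.sqrt p * Real.sin (t * (2 * Real.pi / 5)),
    Real.sqrt q * Real.cos (t * (3 * Real.pi / 5)), Real.sqrt q * Real.sin (t * (3 * Real.pi / 5))]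

theorem XX_inner {p q : ℝ} (hp : 0 ≤ p) (hq : 0 ≤ q) (s t : ℝ) : inner ℝ (XX p q s) (XX p q t) = RR p q (t - s) := by
  have hp2 : Real.sqrt p ^ 2 = p := Real.sq_sqrt hp
  have hq2 : Real.sqrt q ^ 2 = q := Real.sq_sqrt hq
  unfold XX RR
  rw [PiLp.inner_apply, Fin.sum_univ_four, sub_mul, sub_mul, Real.cos_sub, Real.cos_sub]
  simp only [Matrix.cons_val_zero, Matrix.cons_val_one, Matrix.cons_val, RCLike.inner_apply, conj_trivial]
  linear_combination (Real.cos (t * (2 * Real.pi / 5)) * Real.cos (s * (2 * Real.pi / 5)) +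
    Real.sin (t * (2 * Real.pi / 5)) * Real.sin (s * (2 * Real.pi / 5))) * hp2 +
    (Real.cos (t * (3 * Real.pi / 5)) * Real.cos (s * (3 * Real.pi / 5)) +
    Real.sin (t * (3 * Real.pi / 5)) * Real.sin (s * (3 * Real.pi / 5))) * hq2

theorem XX_per (p q t : ℝ) : XX p q (t + 10) = XX p q t := by
  unfold XX
  have e1 : (t + 10) * (2 * Real.pi / 5) = t * (2 * Real.pi / 5) + (2 : ℕ) * (2 * Real.pi) := by
    push_cast
    ring
  have e2 : (t + 10) * (3 * Real.pi / 5) = t * (3 * Real.pi / 5) + (3 : ℕ) * (2 * Real.pi) := by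
    push_cast
    ring
  rw [e1, e2, Real.cos_add_nat_mul_two_pi, Real.cos_add_nat_mul_two_pi, Real.sin_add_nat_mul_two_pi,
    Real.sin_add_nat_mul_two_pi]

/-- the directions -/
noncomputable def UU (m β p q t : ℝ) : EuclideanSpace ℝ (Fin 4) :=
  (1 + β - m) • XX p q (t + 1) - β • XX p q t - XX p q (t + 2)

/-- the projections, up to the factor `ℓ - m` -/
noncomputable def VV (ℓ β p q t : ℝ) : EuclideanSpace ℝ (Fin 4) :=
  (ℓ - 1 - β) • XX p q (t + 1) + β • XX p q t + XX p q (t + 2)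

theorem VV_per (ℓ β p q t : ℝ) : VV ℓ β p q (t + 10) = VV ℓ β p q t := by
  unfold VV
  have e1 : t + 10 + 1 = (t + 1) + 10 := by ring
  have e2 : t + 10 + 2 = (t + 2) + 10 := by ring
  rw [e1, e2, XX_per, XX_per, XX_per]

theorem UV_inner {ℓ m β w φ τ κ p q : ℝ} (hφ5 : φ = (1 + Real.sqrt 5) / 2) (hw0 : 0 < 1 + w)
    (hτ : (1 + w) * τ = 4 * w * φ) (hκ : κ = 1 + φ - w * (φ - 1) ^ 2)
    (g1 : β * ℓ + m = 1 + β ^ 2)
    (g4 : (1 + w) * (ℓ + β * m - (1 + β) ^ 2 - 2 * β) + 4 * w * β * φ = 0)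
    (gQ : (1 + β - m) * (ℓ - 1 - β) - β ^ 2 - 1 = β * (1 - w * (φ - 1) ^ 2))
    (hp : 0 ≤ p) (hq : 0 ≤ q) (t s : ℝ) :
    inner ℝ (UU m β p q t) (VV ℓ β p q s) =
      β * (κ * RR p q (s - t) + 2 * RR p q (s - t + 1) - (2 - τ) * RR p q (s - t - 1)) := by
  have hr := RR_rec p q (s - t)
  rw [← hφ5] at hr
  have g4' : ℓ + β * m - (1 + β) ^ 2 - 2 * β + β * τ = 0 := by
    have : (1 + w) * (ℓ + β * m - (1 + β) ^ 2 - 2 * β + β * τ) = 0 := by
      linear_combination g4 + β * hτ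
    rcases mul_eq_zero.1 this with h | h
    · exact absurd h hw0.ne'
    · exact h
  unfold UU VV
  simp only [inner_sub_left, inner_add_right, real_inner_smul_left, real_inner_smul_right, XX_inner hp hq]
  have e1 : s + 1 - (t + 1) = s - t := by ring
  have e2 : s - (t + 1) = s - t - 1 := by ring
  have e3 : s + 2 - (t + 1) = s - t + 1 := by ring
  have e4 : s + 1 - t = s - t + 1 := by ring
  have e5 : s + 2 - t = s - t + 2 := by ring
  have e6 : s + 1 - (t + 2) = s - t - 1 := by ring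
  have e7 : s - (t + 2) = s - t - 2 := by ring
  have e8 : s + 2 - (t + 2) = s - t := by ring
  rw [e1, e2, e3, e4, e5, e6, e7, e8, hκ]
  linear_combination RR p q (s - t) * gQ - RR p q (s - t + 1) * g1 - RR p q (s - t - 1) * g4' - β * hr

/-- the cycle of length ten -/
theorem cycle4 {ℓ m β w φ : ℝ} (f1 : 1.618 < φ) (f2 : φ < 1.6181) (hφ5 : φ = (1 + Real.sqrt 5) / 2)
    (hφ : φ ^ 2 = φ + 1)
    (w1 : 0.1935 < w) (w2 : w < 0.1941) (hw : 1 - 2 * φ ^ 2 * w + (φ - 1) ^ 2 * w ^ 2 = 0)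
    (hβ0 : 0 < β) (hm : 0 < m) (hml : m < ℓ)
    (g1 : β * ℓ + m = 1 + β ^ 2)
    (g4 : (1 + w) * (ℓ + β * m - (1 + β) ^ 2 - 2 * β) + 4 * w * β * φ = 0)
    (gQ : (1 + β - m) * (ℓ - 1 - β) - β ^ 2 - 1 = β * (1 - w * (φ - 1) ^ 2)) :
    HasCycle m ℓ 1 β 4 10 := by
  have hw0 : 0 < 1 + w := by linarith
  set τ : ℝ := 4 * w * φ / (1 + w) with hτd
  have hτ : (1 + w) * τ = 4 * w * φ := by
    rw [hτd]
    field_simp
  set κ : ℝ := 1 + φ - w * (φ - 1) ^ 2 with hκ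
  set P : ℝ := φ / 2 * κ + (φ - 1) / 2 * τ with hP
  set D : ℝ := -(κ - (φ - 1) - (2 - τ) * φ / 2) with hD
  obtain ⟨hp, hq, hv⟩ := hval f1 f2 hφ5 hφ w1 w2 hw hτ hκ hP hD
  set p : ℝ := (P + D) / 2 with hpd
  set q : ℝ := (P - D) / 2 with hqd
  have hc : 0 < ℓ - m := by linarith
  set c : ℝ := 1 / (ℓ - m) with hcd
  have hc1 : (ℓ - m) * c = 1 := by
    rw [hcd]
    field_simp
  have hc0 : 0 < c := by positivity
  -- the set
  set Q0 : Set (EuclideanSpace ℝ (Fin 4)) := Set.range fun s : Fin 10 => c • VV ℓ β p q (s : ℕ) with hQ0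
  have hmem : ∀ t : ℕ, c • VV ℓ β p q (t : ℝ) ∈ Q0 := by
    intro t
    refine ⟨⟨t % 10, Nat.mod_lt _ (by norm_num)⟩, ?_⟩
    have hper : Function.Periodic (fun s : ℝ => c • VV ℓ β p q s) 10 := fun s => by
      show c • VV ℓ β p q (s + 10) = _
      rw [VV_per]
    have h1 := hper.nat_mul (t / 10) ((t % 10 : ℕ) : ℝ)
    have h2 : ((t % 10 : ℕ) : ℝ) + ((t / 10 : ℕ) : ℝ) * 10 = (t : ℝ) := by
      have : t % 10 + t / 10 * 10 = t := by omega
      exact_mod_cast this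
    rw [h2] at h1
    exact h1.symm
  obtain ⟨f, hf, hg⟩ := exists_fun (Q := convexHull ℝ Q0) ⟨_, subset_convexHull ℝ Q0 (hmem 0)⟩
    ((Set.finite_range _).isCompact_convexHull (𝕜 := ℝ)).isComplete (convex_convexHull ℝ _) hm.le hml.le
  have hsum : ∀ t : ℝ, XX p q (t + 1) - c • VV ℓ β p q t = c • UU m β p q t := by
    intro t
    have e : UU m β p q t + VV ℓ β p q t = (ℓ - m) • XX p q (t + 1) := by
      unfold UU VV
      module
    have e2 : XX p q (t + 1) = c • (UU m β p q t + VV ℓ β p q t) := by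
      rw [e, smul_smul, mul_comm c, hc1, one_smul]
    rw [e2]
    module
  have hgrad : ∀ t : ℕ, gradient f (XX p q ((t : ℝ) + 1)) =
      (1 + β) • XX p q ((t : ℝ) + 1) - β • XX p q t - XX p q ((t : ℝ) + 2) := by
    intro t
    have h1 : ∀ y ∈ convexHull ℝ Q0,
        inner ℝ (XX p q ((t : ℝ) + 1) - c • VV ℓ β p q t) (y - c • VV ℓ β p q t) ≤ 0 := by
      intro y hy
      rw [hsum]
      have hcv : Convex ℝ {y : EuclideanSpace ℝ (Fin 4) |
          inner ℝ (c • UU m β p q t) y ≤ inner ℝ (c • UU m β p q t) (c • VV ℓ β p q t)} := by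
        apply convex_halfSpace_le
        exact IsLinearMap.mk (fun a b => inner_add_right _ _ _) (fun a b => by
          rw [real_inner_smul_right, smul_eq_mul])
      have h2 : convexHull ℝ Q0 ⊆ {y : EuclideanSpace ℝ (Fin 4) |
          inner ℝ (c • UU m β p q t) y ≤ inner ℝ (c • UU m β p q t) (c • VV ℓ β p q t)} := by
        refine convexHull_min ?_ hcv
        rintro _ ⟨s, rfl⟩
        show inner ℝ (c • UU m β p q t) (c • VV ℓ β p q ((s : ℕ) : ℝ)) ≤ _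
        rw [real_inner_smul_left, real_inner_smul_right, real_inner_smul_left, real_inner_smul_right]
        refine mul_le_mul_of_nonneg_left (mul_le_mul_of_nonneg_left ?_ hc0.le) hc0.le
        rw [UV_inner hφ5 hw0 hτ hκ g1 g4 gQ hp.le hq.le, UV_inner hφ5 hw0 hτ hκ g1 g4 gQ hp.le hq.le]
        refine mul_le_mul_of_nonneg_left ?_ hβ0.le
        have h3 := hv (((s : ℕ) : ℤ) - (t : ℤ))
        push_cast at h3
        have e0 : (t : ℝ) - t = 0 := sub_self _
        rw [e0, zero_add, zero_sub, RR_neg]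
        exact h3
      have h4 := h2 hy
      rw [inner_sub_right]
      have h5 : inner ℝ (c • UU m β p q t) y ≤ inner ℝ (c • UU m β p q t) (c • VV ℓ β p q t) := h4
      linarith
    rw [hg _ _ (subset_convexHull ℝ Q0 (hmem t)) h1, smul_smul, hc1, one_smul]
    unfold VV
    module
  have hφ1 : (0:ℝ) < φ - 1 := by linarith
  obtain ⟨v0, v1, -⟩ := RR_vals hφ5 hφ p q
  refine ⟨f, fun t => XX p q t, hf, ?_, ⟨0, 1, ?_⟩, ?_⟩
  · intro t
    show XX p q ((t + 10 : ℕ) : ℝ) = XX p q t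
    push_cast
    rw [XX_per]
  · intro h
    have h1 : inner ℝ (XX p q ((0 : ℕ) : ℝ)) (XX p q ((0 : ℕ) : ℝ)) = inner ℝ (XX p q ((0 : ℕ) : ℝ)) (XX p q ((1 : ℕ) : ℝ)) := by
      have h' : XX p q ((0 : ℕ) : ℝ) = XX p q ((1 : ℕ) : ℝ) := h
      rw [← h']
    rw [XX_inner hp.le hq.le, XX_inner hp.le hq.le] at h1
    push_cast at h1
    rw [sub_zero, sub_zero, v0, v1] at h1
    nlinarith
  · intro t
    show XX p q ((t + 2 : ℕ) : ℝ) = XX p q ((t + 1 : ℕ) : ℝ) - (1 : ℝ) • gradient f (XX p q ((t + 1 : ℕ) : ℝ)) +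
      β • (XX p q ((t + 1 : ℕ) : ℝ) - XX p q (t : ℝ))
    push_cast
    rw [hgrad t]
    module

end Pool.Agent.Q124.HB
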