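import Mathlib

/-!
# MP_5a160e_an: the heavy-ball method, cycles and the cycling region (definitions)
-/

namespace Pool.Agent.Q124.HB

/-- `f` is differentiable, `μ`-strongly convex and has an `L`-Lipschitz gradient -/
def InClass {E : Type*} [NormedAddCommGroup E] [InnerProductSpace ℝ E] [CompleteSpace E] (μ L : ℝ) (f : E → ℝ) :
    Prop :=
  Differentiable ℝ f ∧ StrongConvexOn Set.univ μ f ∧ ∀ x y, ‖gradient f x - gradient f y‖ ≤ L * ‖x - y‖

/-- there is a cycle of length `K` of the heavy-ball method with tuning `(γ, β)` in dimension `d`: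
a `K`-periodic sequence which is not constant and is produced by the method for some function of the class -/
def HasCycle (μ L γ β : ℝ) (d K : ℕ) : Prop :=
  ∃ (f : EuclideanSpace ℝ (Fin d) → ℝ) (x : ℕ → EuclideanSpace ℝ (Fin d)),
    InClass μ L f ∧ (∀ t, x (t + K) = x t) ∧ (∃ s t, x s ≠ x t) ∧
    ∀ t, x (t + 2) = x (t + 1) - γ • gradient f (x (t + 1)) + β • (x (t + 1) - x t)

/-- the set `C_d` of the tunings `(γ, β)` for which a cycle of some length `K ≥ 3` exists in dimension `d` -/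
def cyc (μ L : ℝ) (d : ℕ) : Set (ℝ × ℝ) := {τ | ∃ K, 3 ≤ K ∧ HasCycle μ L τ.1 τ.2 d K}

/-- the cycling region -/
def region (μ L : ℝ) : Set (ℝ × ℝ) := {τ | ∃ d, 1 ≤ d ∧ τ ∈ cyc μ L d}

end Pool.Agent.Q124.HB
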