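import Pool.Agent.Q218.HB.Stm

/-!
# Project HB, job FOU: the discrete Fourier transform of the torus
-/

set_option autoImplicit false

open MeasureTheory

namespace Pool.Agent.Q124.HB

open Pool.Agent.Q218.HB

theorem cite (p : Prop) [Decidable p] (a : ℂ) : ((if p then (1 : ℝ) else 0 : ℝ) : ℂ) * a = if p then a else 0 := by
  split_ifs <;> simp

theorem msp {ι A : Type} [AddCommMonoid A] (ψ : AddChar A ℂ) (s : Finset ι) (f : ι → A) :
    ψ (∑ i ∈ s, f i) = ∏ i ∈ s, ψ (f i) := by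
  classical
  refine Finset.induction_on s (by simp) fun a s ha ih => ?_
  rw [Finset.sum_insert ha, Finset.prod_insert ha, AddChar.map_add_eq_mul, ih]

/-- the normalized character matrix -/
noncomputable def FF (d n : ℕ) [NeZero n] : Matrix (Tor d n) (Tor d n) ℂ := fun x k =>
  (((Real.sqrt ((n : ℝ) ^ d))⁻¹ : ℝ) : ℂ) * ZMod.stdAddChar (dotProduct x k)

variable {d n : ℕ} [NeZero n]

theorem FF_add (x y k : Tor d n) : FF d n (x + y) k = FF d n x k * ZMod.stdAddChar (dotProduct y k) := by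
  unfold FF
  rw [add_dotProduct, AddChar.map_add_eq_mul]; ring

omit [NeZero n] in
theorem ev_dot (i : Fin d) (k : Tor d n) : dotProduct (ev i) k = k i := by
  unfold ev
  rw [single_dotProduct, one_mul]

theorem std_val (c : ZMod n) : (ZMod.stdAddChar c : ℂ) =
    Complex.exp (((2 * Real.pi * (c.val : ℝ) / n : ℝ) : ℂ) * Complex.I) := by
  rw [ZMod.stdAddChar_apply, ZMod.toCircle_apply]
  congr 1
  push_cast
  ring

theorem std_neg (c : ZMod n) : (ZMod.stdAddChar (-c) : ℂ) =
    Complex.exp (-((2 * Real.pi * (c.val : ℝ) / n : ℝ) : ℂ) * Complex.I) := by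
  rw [AddChar.map_neg_eq_inv, std_val, ← Complex.exp_neg]
  congr 1
  ring

theorem std_cos (c : ZMod n) : (ZMod.stdAddChar c : ℂ) + ZMod.stdAddChar (-c) =
    ((2 * Real.cos (2 * Real.pi * (c.val : ℝ) / n) : ℝ) : ℂ) := by
  rw [std_val, std_neg]
  set t : ℝ := 2 * Real.pi * (c.val : ℝ) / n
  have h : ((2 * Real.cos t : ℝ) : ℂ) = 2 * Complex.cos (t : ℂ) := by push_cast; rfl
  rw [h, Complex.two_cos]

theorem std_conj (c : ZMod n) : (starRingEnd ℂ) (ZMod.stdAddChar c : ℂ) = ZMod.stdAddChar (-c) := by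
  rw [std_val, std_neg, ← Complex.exp_conj]
  congr 1
  rw [map_mul, Complex.conj_I, Complex.conj_ofReal]
  ring

theorem std_norm (c : ZMod n) : ‖(ZMod.stdAddChar c : ℂ)‖ = 1 := by
  rw [std_val, Complex.norm_exp_ofReal_mul_I]

theorem sum_std (x : Tor d n) : ∑ k : Tor d n, (ZMod.stdAddChar (dotProduct x k) : ℂ) =
    if x = 0 then ((n : ℂ)) ^ d else 0 := by
  have h1 : ∀ k : Tor d n, (ZMod.stdAddChar (dotProduct x k) : ℂ) =
      ∏ j, (ZMod.stdAddChar (k j * x j) : ℂ) := by
    intro k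
    unfold dotProduct
    rw [msp]
    refine Finset.prod_congr rfl fun j _ => ?_
    rw [mul_comm]
  rw [Finset.sum_congr rfl fun k _ => h1 k]
  have h2 := Finset.prod_univ_sum (fun _ : Fin d => (Finset.univ : Finset (ZMod n)))
    (fun j c => (ZMod.stdAddChar (c * x j) : ℂ))
  rw [Fintype.piFinset_univ] at h2
  rw [← h2]
  have h3 : ∀ j : Fin d, ∑ c : ZMod n, (ZMod.stdAddChar (c * x j) : ℂ) = if x j = 0 then (n : ℂ) else 0 := by
    intro j
    rw [AddChar.sum_mulShift (x j) (ZMod.isPrimitive_stdAddChar n)]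
    simp [ZMod.card]
  rw [Finset.prod_congr rfl fun j _ => h3 j]
  by_cases hx : x = 0
  · subst hx
    simp
  · rw [if_neg hx]
    obtain ⟨j, hj⟩ := Function.ne_iff.1 hx
    exact Finset.prod_eq_zero (Finset.mem_univ j) (if_neg hj)

theorem FF_unit : FF d n * (FF d n).conjTranspose = 1 := by
  ext x y
  have hn : (0 : ℝ) < (n : ℝ) ^ d := pow_pos (by exact_mod_cast Nat.pos_of_ne_zero (NeZero.ne n)) d
  rw [Matrix.mul_apply]
  have h1 : ∀ k : Tor d n, FF d n x k * (FF d n).conjTranspose k y =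
      ((n : ℂ) ^ d)⁻¹ * ZMod.stdAddChar (dotProduct (x - y) k) := by
    intro k
    rw [Matrix.conjTranspose_apply, sub_dotProduct, sub_eq_add_neg, AddChar.map_add_eq_mul, ← std_conj]
    unfold FF
    rw [star_mul']
    have h2 : (((Real.sqrt ((n : ℝ) ^ d))⁻¹ : ℝ) : ℂ) * (((Real.sqrt ((n : ℝ) ^ d))⁻¹ : ℝ) : ℂ) =
        ((n : ℂ) ^ d)⁻¹ := by
      rw [← Complex.ofReal_mul, ← mul_inv, Real.mul_self_sqrt hn.le]
      push_cast
      rfl
    rw [← h2]
    have h4 : star ((((Real.sqrt ((n : ℝ) ^ d))⁻¹ : ℝ) : ℂ)) = (((Real.sqrt ((n : ℝ) ^ d))⁻¹ : ℝ) : ℂ) :=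
      Complex.conj_ofReal _
    rw [h4]
    have h5 : star (ZMod.stdAddChar (dotProduct y k) : ℂ) = (starRingEnd ℂ) (ZMod.stdAddChar (dotProduct y k)) := rfl
    rw [h5]
    ring
  rw [Finset.sum_congr rfl fun k _ => h1 k, ← Finset.mul_sum, sum_std, Matrix.one_apply]
  have hn' : ((n : ℂ)) ^ d ≠ 0 := by exact_mod_cast hn.ne'
  by_cases hxy : x = y
  · subst hxy
    simp [hn']
  · rw [if_neg (sub_ne_zero.2 hxy), if_neg hxy, mul_zero]

theorem FF_norm (x k : Tor d n) : ‖FF d n x k‖ ^ 2 = 1 / (n : ℝ) ^ d := by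
  unfold FF
  rw [norm_mul, std_norm, mul_one, Complex.norm_real, Real.norm_eq_abs, sq_abs, inv_pow, Real.sq_sqrt (by positivity),
    one_div]

theorem FF_hop : Hm hop (fun _ => 0) * FF d n = FF d n * Matrix.diagonal (fun k => ((en k : ℝ) : ℂ)) := by
  ext x k
  rw [Matrix.mul_diagonal, Matrix.mul_apply]
  have h1 : ∀ y : Tor d n, Hm hop (fun _ => (0 : ℝ)) x y * FF d n y k =
      -∑ i : Fin d, ((if y = x + ev i then FF d n y k else 0) + (if y = x - ev i then FF d n y k else 0)) := by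
    intro y
    unfold Hm hop
    push_cast
    simp only [ite_self, add_zero, neg_mul, Finset.sum_mul, add_mul, cite]
  rw [Finset.sum_congr rfl fun y _ => h1 y, Finset.sum_neg_distrib, Finset.sum_comm]
  have h2 : ∀ i : Fin d, ∑ y : Tor d n, ((if y = x + ev i then FF d n y k else 0) +
      (if y = x - ev i then FF d n y k else 0)) =
      FF d n x k * ((2 * Real.cos (2 * Real.pi * ((k i).val : ℝ) / n) : ℝ) : ℂ) := by
    intro i
    rw [Finset.sum_add_distrib, Finset.sum_ite_eq' Finset.univ, Finset.sum_ite_eq' Finset.univ,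
      if_pos (Finset.mem_univ _), if_pos (Finset.mem_univ _), sub_eq_add_neg, FF_add, FF_add, neg_dotProduct,
      ev_dot, ← std_cos]
    ring
  rw [Finset.sum_congr rfl fun i _ => h2 i, ← Finset.mul_sum]
  unfold en
  rw [← Complex.ofReal_sum, ← Finset.mul_sum]
  push_cast
  ring

theorem FF_two (i : Fin d) (c : ℝ) : Hm (two i) (fun _ => c) * FF d n = FF d n *
    Matrix.diagonal (fun k => ((4 * Real.sin (2 * Real.pi * ((k i).val : ℝ) / n) ^ 2 + c : ℝ) : ℂ)) := by
  ext x k
  rw [Matrix.mul_diagonal, Matrix.mul_apply]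
  have h1 : ∀ y : Tor d n, Hm (two i) (fun _ => c) x y * FF d n y k =
      2 * (if y = x then FF d n y k else 0) - (if y = x + ev i + ev i then FF d n y k else 0) -
        (if y = x - ev i - ev i then FF d n y k else 0) + (c : ℂ) * (if y = x then FF d n y k else 0) := by
    intro y
    unfold Hm two
    by_cases hxy : y = x
    · subst hxy
      push_cast
      simp only [if_true, add_mul, sub_mul, cite, mul_assoc]
      simp
    · have hyx : ¬ x = y := fun h => hxy h.symm
      push_cast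
      simp only [if_neg hxy, if_neg hyx, sub_mul, cite, mul_zero, add_zero]
      simp
  rw [Finset.sum_congr rfl fun y _ => h1 y, Finset.sum_add_distrib, Finset.sum_sub_distrib,
    Finset.sum_sub_distrib, ← Finset.mul_sum, ← Finset.mul_sum]
  simp only [Finset.sum_ite_eq', Finset.mem_univ, if_true]
  rw [sub_eq_add_neg (x - ev i), sub_eq_add_neg x, FF_add, FF_add, FF_add, FF_add, neg_dotProduct, ev_dot]
  have h3 := std_cos (k i)
  have h4 : (ZMod.stdAddChar (k i) : ℂ) * ZMod.stdAddChar (-(k i)) = 1 := by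
    rw [← AddChar.map_add_eq_mul, add_neg_cancel, AddChar.map_zero_eq_one]
  set u : ℂ := ZMod.stdAddChar (k i)
  set v : ℂ := ZMod.stdAddChar (-(k i))
  set t : ℝ := 2 * Real.pi * ((k i).val : ℝ) / n
  have h5 : u * u + v * v = ((2 * Real.cos t : ℝ) : ℂ) ^ 2 - 2 := by
    rw [← h3]
    linear_combination (-2 : ℂ) * h4
  have h6 : Real.sin t ^ 2 = 1 - Real.cos t ^ 2 := by
    have := Real.sin_sq_add_cos_sq t
    linarith
  have h7 : ((4 * Real.sin t ^ 2 + c : ℝ) : ℂ) = 4 - ((2 * Real.cos t : ℝ) : ℂ) ^ 2 + c := by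
    rw [h6]
    push_cast
    ring
  rw [h7]
  linear_combination (-FF d n x k) * h5

/-- JOB FOU -/
theorem fou : S_FOU := by
  intro d n _
  exact ⟨FF d n, FF_unit, mul_eq_one_comm.1 FF_unit, FF_norm, FF_hop, FF_two⟩

end Pool.Agent.Q124.HB
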