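import Pool.Agent.Q124.HB.RIE
import Pool.Agent.Q218.HB.Stm3

/-!
# Project HB, job FRE: the free resolvent at all small scales
-/

set_option autoImplicit false

open MeasureTheory

namespace Pool.Agent.Q124.HB

open Pool.Agent.Q218.HB

variable {n : ℕ} [NeZero n]

theorem bn_cont : Continuous (bn n) := by
  unfold bn
  refine continuous_const.mul (continuous_finsetSum _ fun j _ => ?_)
  fun_prop

/-- `In` decreases in `η` -/
theorem In_anti (m : ℕ) {η0 η : ℝ} (h0 : 0 < η0) (h : η0 ≤ η) : In n m η ≤ In n m η0 := by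
  unfold In
  have i1 : Integrable (fun q : ℝ => Real.exp (-(η0 * q)) * ‖bn n q‖ ^ m) (volume.restrict (Set.Ioi (0 : ℝ))) := by
    have i0 : Integrable (fun q : ℝ => Real.exp (-η0 * q)) (volume.restrict (Set.Ioi (0 : ℝ))) :=
      exp_neg_integrableOn_Ioi 0 h0
    refine i0.mono' ?_ (Filter.Eventually.of_forall fun q => ?_)
    · refine Continuous.aestronglyMeasurable ?_
      exact (Real.continuous_exp.comp (by fun_prop)).mul ((bn_cont.norm).pow m)
    · rw [norm_mul, norm_pow, norm_norm, Real.norm_eq_abs, abs_of_pos (Real.exp_pos _)]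
      have h1 : ‖bn n q‖ ^ m ≤ 1 := pow_le_one₀ (norm_nonneg _) (bn_le q)
      have e : -(η0 * q) = -η0 * q := by ring
      rw [e]
      exact mul_le_of_le_one_right (Real.exp_pos _).le h1
  refine integral_mono_of_nonneg (Filter.Eventually.of_forall fun q => by positivity) i1 ?_
  refine (ae_restrict_iff' measurableSet_Ioi).2 (Filter.Eventually.of_forall fun q hq => ?_)
  have hq' : 0 < q := hq
  simp only []
  refine mul_le_mul_of_nonneg_right (Real.exp_le_exp.2 ?_) (by positivity)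
  nlinarith

/-- JOB FRE -/
theorem fre : S_FRE := by
  intro hBES hBIN hRIE
  obtain ⟨C, hC⟩ := hBIN hBES
  refine ⟨2 * max C 0 + 1, by positivity, fun K d hK hd hKd => ?_⟩
  have hd0 : (0 : ℝ) < d := by
    have : (3 : ℝ) ≤ d := by exact_mod_cast hd
    linarith
  have hd3 : (3 : ℝ) ≤ d := by exact_mod_cast hd
  have hs0 : 0 < Real.sqrt d := Real.sqrt_pos.2 hd0
  have hKd0 : 0 < K * d := by positivity
  obtain ⟨η0, hη0⟩ : ∃ η0 : ℝ, η0 = (K * d) ^ (-(1 / 2 : ℝ)) := ⟨_, rfl⟩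
  have hη0p : 0 < η0 := by rw [hη0]; positivity
  have hη0e : η0 = 1 / Real.sqrt (K * d) := by
    rw [hη0, Real.rpow_neg hKd0.le, ← Real.sqrt_eq_rpow, one_div]
  have hη0d : 1 / (d : ℝ) ≤ η0 := by
    rw [hη0e]
    refine one_div_le_one_div_of_le (Real.sqrt_pos.2 hKd0) ?_
    rw [Real.sqrt_le_left hd0.le]
    nlinarith
  obtain ⟨n1, hn1⟩ := hRIE d η0 (1 / Real.sqrt d) hη0p (by positivity)
  obtain ⟨n2, hn2⟩ := hRIE (d - 1) η0 (1 / Real.sqrt d) hη0p (by positivity)
  refine ⟨max n1 n2, fun n _ hn η hη => ?_⟩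
  rw [← hη0] at hη
  have hpow : (d : ℝ) ^ (-(1 / 2 : ℝ)) = 1 / Real.sqrt d := by
    rw [Real.rpow_neg hd0.le, ← Real.sqrt_eq_rpow, one_div]
  rw [hpow]
  have hC0 : C ≤ max C 0 := le_max_left _ _
  have hC1 : 0 ≤ max C 0 := le_max_right _ _
  constructor
  · have h1 := (In_anti (n := n) d hη0p hη).trans (hn1 n ((le_max_left _ _).trans hn))
    have h2 := hC d η0 (by omega) ((one_div_le_one_div_of_le hd0 (by linarith)).trans hη0d)
    have h3 : C / Real.sqrt d ≤ 2 * max C 0 / Real.sqrt d :=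
      div_le_div_of_nonneg_right (by linarith) hs0.le
    have e : (2 * max C 0 + 1) * (1 / Real.sqrt d) = 2 * max C 0 / Real.sqrt d + 1 / Real.sqrt d := by ring
    rw [e]
    linarith
  · have h1 := (In_anti (n := n) (d - 1) hη0p hη).trans (hn2 n ((le_max_right _ _).trans hn))
    have hcast : ((d - 1 : ℕ) : ℝ) = (d : ℝ) - 1 := by
      rw [Nat.cast_sub (by omega), Nat.cast_one]
    have h2 := hC (d - 1) η0 (by omega) (by
      rw [hcast, sub_add_cancel]
      exact hη0d)
    have hs1 : Real.sqrt d / 2 ≤ Real.sqrt ((d - 1 : ℕ) : ℝ) := by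
      rw [hcast]
      refine Real.le_sqrt_of_sq_le ?_
      rw [div_pow, Real.sq_sqrt hd0.le]
      linarith
    have h3 : C / Real.sqrt ((d - 1 : ℕ) : ℝ) ≤ 2 * max C 0 / Real.sqrt d := by
      have hs2 : 0 < Real.sqrt ((d - 1 : ℕ) : ℝ) := lt_of_lt_of_le (by positivity) hs1
      calc C / Real.sqrt ((d - 1 : ℕ) : ℝ) ≤ max C 0 / Real.sqrt ((d - 1 : ℕ) : ℝ) :=
            div_le_div_of_nonneg_right hC0 hs2.le
        _ ≤ max C 0 / (Real.sqrt d / 2) := div_le_div_of_nonneg_left hC1 (by positivity) hs1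
        _ = 2 * max C 0 / Real.sqrt d := by field_simp
    have e : (2 * max C 0 + 1) * (1 / Real.sqrt d) = 2 * max C 0 / Real.sqrt d + 1 / Real.sqrt d := by ring
    rw [e]
    linarith

end Pool.Agent.Q124.HB
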