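import Pool.Agent.Q124.HB.GZE
import Pool.Agent.Q218.HB.Stm3

/-!
# Project HB, job MOM: the Fourier transform of the approximate eigenfunctions of the free operator
-/

set_option autoImplicit false

open MeasureTheory

namespace Pool.Agent.Q124.HB

open Pool.Agent.Q218.HB

variable {d n : ℕ} [NeZero n]

theorem std_dot (x k : Tor d n) : (ZMod.stdAddChar (dotProduct x k) : ℂ) =
    Complex.exp (((2 * Real.pi * (∑ j : Fin d, ((k j).val : ℝ) * ((x j).val : ℝ)) / n : ℝ) : ℂ) * Complex.I) := by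
  have h1 : dotProduct x k = (((∑ j : Fin d, (k j).val * (x j).val : ℕ) : ℤ) : ZMod n) := by
    unfold dotProduct
    push_cast
    refine Finset.sum_congr rfl fun j _ => ?_
    rw [ZMod.natCast_zmod_val, ZMod.natCast_zmod_val, mul_comm]
  rw [h1, ZMod.stdAddChar_coe]
  congr 1
  push_cast
  ring

theorem fo_eq (φ : Tor d n → ℂ) (k : Tor d n) : fo φ k = (Matrix.mulVec (FF d n).conjTranspose φ) k := by
  unfold fo Matrix.mulVec dotProduct
  rw [Finset.mul_sum]
  refine Finset.sum_congr rfl fun x _ => ?_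
  change _ = star (FF d n x k) * φ x
  unfold FF
  rw [std_dot, star_mul']
  have h4 : star ((((Real.sqrt ((n : ℝ) ^ d))⁻¹ : ℝ) : ℂ)) = (((Real.sqrt ((n : ℝ) ^ d))⁻¹ : ℝ) : ℂ) :=
    Complex.conj_ofReal _
  have h5 : ∀ t : ℝ, star (Complex.exp ((t : ℂ) * Complex.I)) = Complex.exp (-(t : ℂ) * Complex.I) := by
    intro t
    change (starRingEnd ℂ) (Complex.exp ((t : ℂ) * Complex.I)) = _
    rw [← Complex.exp_conj, map_mul, Complex.conj_I, Complex.conj_ofReal]
    congr 1
    ring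
  rw [h4, h5]
  ring

/-- Parseval -/
theorem parseval (r : Tor d n → ℂ) :
    ∑ k, ‖(Matrix.mulVec (FF d n).conjTranspose r) k‖ ^ 2 = ∑ x, ‖r x‖ ^ 2 := by
  have h0 : ∀ u : Tor d n → ℂ, ((∑ k, ‖u k‖ ^ 2 : ℝ) : ℂ) = dotProduct (star u) u := by
    intro u
    unfold dotProduct
    push_cast
    refine Finset.sum_congr rfl fun k _ => ?_
    rw [Pi.star_apply]
    exact (Complex.conj_mul' (u k)).symm
  have h1 : ((∑ k, ‖(Matrix.mulVec (FF d n).conjTranspose r) k‖ ^ 2 : ℝ) : ℂ) = ((∑ x, ‖r x‖ ^ 2 : ℝ) : ℂ) := by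
    rw [h0, h0, Matrix.star_mulVec, Matrix.conjTranspose_conjTranspose, ← Matrix.dotProduct_mulVec,
      Matrix.mulVec_mulVec, FF_unit, Matrix.one_mulVec]
  exact_mod_cast h1

/-- JOB MOM -/
theorem mom : S_MOM := by
  intro d n _ E η e hη he φ
  set u : Tor d n → ℂ := Matrix.mulVec (FF d n).conjTranspose φ with hu
  set r : Tor d n → ℂ := fun x => φ x - ((e : ℂ) - pt E η) * ∑ y, G hop (fun _ => 0) (pt E η) x y * φ y with hr
  have hG := G_diag (FF d n) FF_unit FF_hop E η hη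
  have hr2 : r = φ - ((e : ℂ) - pt E η) • Matrix.mulVec (G hop (fun _ => 0) (pt E η)) φ := by
    funext x
    rw [hr]
    rfl
  have hFr : ∀ k, (Matrix.mulVec (FF d n).conjTranspose r) k =
      u k - ((e : ℂ) - pt E η) * ((((en k : ℝ) : ℂ) - pt E η)⁻¹ * u k) := by
    intro k
    rw [hr2, Matrix.mulVec_sub, Matrix.mulVec_smul, hG, Matrix.mulVec_mulVec]
    have e1 : (FF d n).conjTranspose * (FF d n * Matrix.diagonal (fun k : Tor d n => (((en k : ℝ) : ℂ) - pt E η)⁻¹) *
        (FF d n).conjTranspose) = Matrix.diagonal (fun k : Tor d n => (((en k : ℝ) : ℂ) - pt E η)⁻¹) *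
        (FF d n).conjTranspose := by
      rw [← mul_assoc, ← mul_assoc, mul_eq_one_comm.1 (FF_unit (d := d) (n := n)), one_mul]
    rw [e1, ← Matrix.mulVec_mulVec, Pi.sub_apply, Pi.smul_apply, Matrix.mulVec_diagonal, smul_eq_mul]
  have hk : ∀ k : Tor d n, Set.indicator {k : Tor d n | 3 * η < |en k - E|} (fun k => ‖fo φ k‖ ^ 2) k ≤
      4 * ‖(Matrix.mulVec (FF d n).conjTranspose r) k‖ ^ 2 := by
    intro k
    by_cases h : k ∈ {k : Tor d n | 3 * η < |en k - E|}
    · rw [Set.indicator_of_mem h]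
      have h' : 3 * η < |en k - E| := h
      rw [fo_eq, ← hu, hFr k]
      have hne : (((en k : ℝ) : ℂ) - pt E η) ≠ 0 := en_sub_ne E η hη (en k)
      have e2 : u k - ((e : ℂ) - pt E η) * ((((en k : ℝ) : ℂ) - pt E η)⁻¹ * u k) =
          ((((en k - e : ℝ)) : ℂ) / (((en k : ℝ) : ℂ) - pt E η)) * u k := by
        push_cast
        field_simp
        ring
      rw [e2, norm_mul, norm_div, Complex.norm_real, Real.norm_eq_abs]
      have h1 : ‖((en k : ℝ) : ℂ) - pt E η‖ ≤ |en k - E| + η := by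
        have e3 : ((en k : ℝ) : ℂ) - pt E η = ((en k - E : ℝ) : ℂ) - ((η : ℝ) : ℂ) * Complex.I := by
          unfold pt
          push_cast
          ring
        rw [e3]
        refine (norm_sub_le _ _).trans ?_
        rw [Complex.norm_real, norm_mul, Complex.norm_real, Complex.norm_I, mul_one, Real.norm_eq_abs,
          Real.norm_eq_abs, abs_of_pos hη]
      have h2 : |en k - E| - η ≤ |en k - e| := by
        have h3 : |en k - E| ≤ |en k - e| + |e - E| := by
          have := abs_add_le (en k - e) (e - E)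
          rwa [sub_add_sub_cancel] at this
        linarith
      have hpos : 0 < ‖((en k : ℝ) : ℂ) - pt E η‖ := norm_pos_iff.2 hne
      have h4 : 1 / 2 ≤ |en k - e| / ‖((en k : ℝ) : ℂ) - pt E η‖ := by
        rw [div_le_div_iff₀ (by norm_num) hpos]
        linarith
      have h5 : 1 / 2 * ‖u k‖ ≤ |en k - e| / ‖((en k : ℝ) : ℂ) - pt E η‖ * ‖u k‖ :=
        mul_le_mul_of_nonneg_right h4 (norm_nonneg _)
      have h6 : 0 ≤ ‖u k‖ := norm_nonneg _
      nlinarith
    · rw [Set.indicator_of_notMem h]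
      positivity
  calc ∑ k, Set.indicator {k : Tor d n | 3 * η < |en k - E|} (fun k => ‖fo φ k‖ ^ 2) k
      ≤ ∑ k, 4 * ‖(Matrix.mulVec (FF d n).conjTranspose r) k‖ ^ 2 := Finset.sum_le_sum fun k _ => hk k
    _ = 4 * ∑ x, ‖r x‖ ^ 2 := by rw [← Finset.mul_sum, parseval]

end Pool.Agent.Q124.HB
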