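import Mathlib

/-!
# MP_5a160e_an: the parameters
-/

namespace Pool.Agent.Q124.HB

/-- the golden ratio and the weight -/
theorem exists_phi_w : ∃ φ w : ℝ, 1.618 < φ ∧ φ < 1.6181 ∧ φ ^ 2 = φ + 1 ∧ 0.1935 < w ∧ w < 0.1941 ∧
    1 - 2 * φ ^ 2 * w + (φ - 1) ^ 2 * w ^ 2 = 0 ∧ φ = (1 + Real.sqrt 5) / 2 := by
  have h5 : Real.sqrt 5 ^ 2 = 5 := Real.sq_sqrt (by norm_num)
  have h5a : 2.236 < Real.sqrt 5 := by
    rw [Real.lt_sqrt (by norm_num)]
    norm_num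
  have h5b : Real.sqrt 5 < 2.2362 := by
    rw [Real.sqrt_lt' (by norm_num)]
    norm_num
  set φ : ℝ := (1 + Real.sqrt 5) / 2 with hφ
  have h1 : 1.618 < φ := by rw [hφ]; linarith
  have h2 : φ < 1.6181 := by rw [hφ]; linarith
  have h3 : φ ^ 2 = φ + 1 := by
    rw [hφ]
    linear_combination (1 / 4) * h5
  set r : ℝ := Real.sqrt φ with hr
  have hr2 : r ^ 2 = φ := Real.sq_sqrt (by linarith)
  have hra : 1.2719 < r := by
    rw [hr, Real.lt_sqrt (by norm_num)]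
    refine lt_trans ?_ h1
    norm_num
  have hrb : r < 1.2722 := by
    rw [hr, Real.sqrt_lt' (by norm_num)]
    refine lt_trans h2 ?_
    norm_num
  have hr4 : r ^ 4 = r ^ 2 + 1 := by
    have : r ^ 4 = (r ^ 2) ^ 2 := by ring
    rw [this, hr2, h3]
  have hpos : 0 < (1 + r) ^ 2 := by positivity
  refine ⟨φ, 1 / (1 + r) ^ 2, h1, h2, h3, ?_, ?_, ?_, hφ⟩
  · rw [lt_div_iff₀ hpos]
    nlinarith
  · rw [div_lt_iff₀ hpos]
    nlinarith
  · rw [← hr2]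
    field_simp
    linear_combination (-2 * (1 + r) ^ 2) * hr4

/-- the relations -/
theorem params_aux {φ w τ c0 β L M : ℝ} (hβ0 : 0 < β) (hβ1 : β < 1) (hτ1 : (1 + w) * τ = 4 * w * φ) (ht : τ < 4)
    (hc0 : c0 = 1 - τ + w * (φ - 1) ^ 2) (hL : 0 < L) (hM : 0 < M)
    (eL : L = (1 - β) * (1 + β ^ 2) + (4 - τ) * β) (eM : M = (1 + β ^ 2) * (1 - β ^ 2) - β * L)
    (hLM : L * M = β * c0 * (1 - β ^ 2) ^ 2) :
    0 < M / (1 - β ^ 2) ∧ M / (1 - β ^ 2) < L / (1 - β ^ 2) ∧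
      β * (L / (1 - β ^ 2)) + M / (1 - β ^ 2) = 1 + β ^ 2 ∧
      (1 + w) * (L / (1 - β ^ 2) + β * (M / (1 - β ^ 2)) - (1 + β) ^ 2 - 2 * β) + 4 * w * β * φ = 0 ∧
      (1 + β - M / (1 - β ^ 2)) * (L / (1 - β ^ 2) - 1 - β) - β ^ 2 - 1 = β * (1 - w * (φ - 1) ^ 2) := by
  have hd : 0 < 1 - β ^ 2 := by nlinarith
  have hd' : 1 - β ^ 2 ≠ 0 := hd.ne'
  set ℓ := L / (1 - β ^ 2) with hℓ
  set m := M / (1 - β ^ 2) with hm
  have eℓ : ℓ * (1 - β ^ 2) = L := by rw [hℓ]; exact div_mul_cancel₀ _ hd'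
  have em : m * (1 - β ^ 2) = M := by rw [hm]; exact div_mul_cancel₀ _ hd'
  have hm0 : 0 < m := div_pos hM hd
  have h2 : β * ℓ + m = 1 + β ^ 2 := by
    apply mul_right_cancel₀ hd'
    linear_combination β * eℓ + em + eM
  have h1 : ℓ + β * m = 1 + β ^ 2 + (4 - τ) * β := by
    apply mul_right_cancel₀ hd'
    linear_combination eℓ + β * em + β * eM + (1 - β ^ 2) * eL
  have h3 : ℓ * m = β * c0 := by
    apply mul_right_cancel₀ (pow_ne_zero 2 hd')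
    linear_combination (m * (1 - β ^ 2)) * eℓ + L * em + hLM
  refine ⟨hm0, ?_, h2, ?_, ?_⟩
  · have h4 : (1 - β) * (ℓ - m) = (4 - τ) * β := by linear_combination h1 - h2
    have h5 : 0 < (4 - τ) * β := mul_pos (by linarith) hβ0
    have h6 : 0 < (1 - β) * (ℓ - m) := by rw [h4]; exact h5
    have h7 := (mul_pos_iff_of_pos_left (by linarith : (0:ℝ) < 1 - β)).1 h6
    linarith
  · linear_combination (1 + w) * h1 - β * hτ1
  · linear_combination h1 + h2 - h3 - β * hc0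

/-- the parameters of the method -/
theorem exists_params {φ w : ℝ} (f1 : 1.618 < φ) (f2 : φ < 1.6181) (hφ : φ ^ 2 = φ + 1) (w1 : 0.1935 < w)
    (w2 : w < 0.1941) :
    ∃ β ℓ m : ℝ, 0 < β ∧ β < 1 ∧ 0 < m ∧ m < ℓ ∧ β * ℓ + m = 1 + β ^ 2 ∧
      (1 + w) * (ℓ + β * m - (1 + β) ^ 2 - 2 * β) + 4 * w * β * φ = 0 ∧
      (1 + β - m) * (ℓ - 1 - β) - β ^ 2 - 1 = β * (1 - w * (φ - 1) ^ 2) := by
  set τ : ℝ := 4 * w * φ / (1 + w) with hτ
  have hw0 : 0 < 1 + w := by linarith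
  have hτ1 : (1 + w) * τ = 4 * w * φ := by
    rw [hτ]
    field_simp
  have t1 : 1.049 < τ := by
    rw [hτ, lt_div_iff₀ hw0]
    nlinarith
  have t2 : τ < 1.0525 := by
    rw [hτ, div_lt_iff₀ hw0]
    nlinarith
  have q1 : 0.0738 < w * (φ - 1) ^ 2 := by nlinarith [mul_pos (sub_pos.2 f1) (sub_pos.2 w1)]
  have q2 : w * (φ - 1) ^ 2 < 0.0743 := by nlinarith [mul_pos (sub_pos.2 f2) (sub_pos.2 w2)]
  set c0 : ℝ := 1 - τ + w * (φ - 1) ^ 2 with hc0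
  have c1 : 0.021 < c0 := by rw [hc0]; linarith
  have c2 : c0 < 0.026 := by rw [hc0]; linarith
  -- the equation for `β`
  let L : ℝ → ℝ := fun b => (1 - b) * (1 + b ^ 2) + (4 - τ) * b
  let M : ℝ → ℝ := fun b => (1 + b ^ 2) * (1 - b ^ 2) - b * L b
  let F : ℝ → ℝ := fun b => b * c0 * (1 - b ^ 2) ^ 2 - L b * M b
  have hcont : ContinuousOn F (Set.Icc 0.46 0.475) := by
    apply Continuous.continuousOn
    simp only [F, M, L]
    fun_prop
  have Fa : F 0.46 ≤ 0 := by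
    simp only [F, M, L]
    nlinarith
  have Fb : 0 ≤ F 0.475 := by
    simp only [F, M, L]
    nlinarith
  obtain ⟨β, hβ, hF⟩ := intermediate_value_Icc (by norm_num) hcont ⟨Fa, Fb⟩
  obtain ⟨b1, b2⟩ := hβ
  have hβ0 : 0 < β := by linarith
  have hβ1 : β < 1 := by linarith
  have hd : 0 < 1 - β ^ 2 := by nlinarith
  have hL : 0 < L β := by
    simp only [L]
    have : 0 < (1 - β) * (1 + β ^ 2) := mul_pos (by linarith) (by positivity)
    have : 0 < (4 - τ) * β := mul_pos (by linarith) hβ0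
    linarith
  have hLM : L β * M β = β * c0 * (1 - β ^ 2) ^ 2 := by
    simp only [F] at hF
    linarith
  have hM : 0 < M β := by
    have h3 : 0 < L β * M β := by
      rw [hLM]
      have : 0 < c0 := by linarith
      positivity
    exact (mul_pos_iff_of_pos_left hL).1 h3
  have eM : M β = (1 + β ^ 2) * (1 - β ^ 2) - β * L β := rfl
  have eL : L β = (1 - β) * (1 + β ^ 2) + (4 - τ) * β := rfl
  exact ⟨β, L β / (1 - β ^ 2), M β / (1 - β ^ 2), hβ0, hβ1,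
    params_aux hβ0 hβ1 hτ1 (by linarith) hc0 hL hM eL eM hLM⟩

end Pool.Agent.Q124.HB
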