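import Pool.Agent.Q218.HB.Stm

/-!
# Project HB, job RES: the mean zero variable at one site
-/

set_option autoImplicit false

open MeasureTheory ProbabilityTheory

namespace Pool.Agent.Q124.HB

open Pool.Agent.Q218.HB

/-- JOB RES -/
theorem res : S_RES := by
  intro Λ _ _ ν _ M hM hν h0 x f hf hBd
  obtain ⟨B, hB⟩ := hBd
  have hprob : IsProbabilityMeasure (iid Λ ν) := by unfold iid; infer_instance
  have hmp : MeasurePreserving (Function.eval x) (iid Λ ν) ν := by
    unfold iid
    exact measurePreserving_eval (fun _ : Λ => ν) x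
  have hcu : Continuous fun V : Λ → ℝ => up V x := by
    unfold up
    exact continuous_id.update x continuous_const
  have hind : iIndepFun (fun (i : Λ) (V : Λ → ℝ) => V i) (iid Λ ν) := by
    unfold iid
    exact iIndepFun_pi (μ := fun _ : Λ => ν) (X := fun (_ : Λ) (t : ℝ) => t) (fun _ => aemeasurable_id)
  have hx0 : ∫ V, ((V x : ℝ) : ℂ) ∂(iid Λ ν) = 0 := by
    have h1 : ∫ V, (V x : ℝ) ∂(iid Λ ν) = ∫ t, t ∂ν := by
      have h2 := integral_map (μ := iid Λ ν) (f := fun t : ℝ => t) hmp.measurable.aemeasurable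
        aestronglyMeasurable_id
      rw [hmp.map_eq] at h2
      exact h2.symm
    have h3 : ∫ V, ((V x : ℝ) : ℂ) ∂(iid Λ ν) = ((∫ V, (V x : ℝ) ∂(iid Λ ν) : ℝ) : ℂ) :=
      integral_ofReal
    rw [h3, h1, h0, Complex.ofReal_zero]
  have hz : ∫ V, ((V x : ℝ) : ℂ) * f (up V x) ∂(iid Λ ν) = 0 := by
    have hdis : Disjoint ({x} : Finset Λ) (Finset.univ \ {x}) := Finset.disjoint_sdiff
    have hI := hind.indepFun_finset {x} (Finset.univ \ {x}) hdis (fun i => measurable_pi_apply i)
    have hc1 : Continuous fun w : ({x} : Finset Λ) → ℝ => ((w ⟨x, Finset.mem_singleton_self x⟩ : ℝ) : ℂ) :=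
      Complex.continuous_ofReal.comp (continuous_apply _)
    have hc2 : Continuous fun w : ((Finset.univ \ {x} : Finset Λ)) → ℝ =>
        f (fun y => if h : y ∈ (Finset.univ \ {x} : Finset Λ) then w ⟨y, h⟩ else 0) := by
      refine hf.comp (continuous_pi fun y => ?_)
      by_cases h : y ∈ (Finset.univ \ {x} : Finset Λ)
      · simp only [h, dif_pos]
        exact continuous_apply _
      · simp only [h, dif_neg, not_false_eq_true]
        exact continuous_const
    have h1 := hI.integral_fun_comp_mul_comp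
      (f := fun w : ({x} : Finset Λ) → ℝ => ((w ⟨x, Finset.mem_singleton_self x⟩ : ℝ) : ℂ))
      (g := fun w => f (fun y => if h : y ∈ (Finset.univ \ {x} : Finset Λ) then w ⟨y, h⟩ else 0))
      (measurable_pi_lambda _ fun i => measurable_pi_apply _).aemeasurable
      (measurable_pi_lambda _ fun i => measurable_pi_apply _).aemeasurable hc1.aestronglyMeasurable hc2.aestronglyMeasurable
    simp only [] at h1
    rw [hx0, zero_mul] at h1
    rw [← h1]
    refine integral_congr_ae (Filter.Eventually.of_forall fun V => ?_)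
    simp only []
    congr 2
    funext y
    unfold up
    by_cases h : y = x
    · subst h
      simp
    · simp [h]
  have hae : ∀ᵐ V ∂(iid Λ ν), |V x| ≤ M := by
    have h1 : ∀ᵐ t ∂ν, |t| ≤ M := by
      rw [ae_iff]
      refine measure_mono_null (fun t ht => ?_) hν
      intro h2
      exact ht (abs_le.2 h2)
    exact hmp.quasiMeasurePreserving.ae h1
  have hxc : Continuous fun V : Λ → ℝ => ((V x : ℝ) : ℂ) :=
    Complex.continuous_ofReal.comp (continuous_apply x)
  have hB0 : 0 ≤ B := (norm_nonneg _).trans (hB 0)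
  have hi1 : Integrable (fun V : Λ → ℝ => ((V x : ℝ) : ℂ) * f V) (iid Λ ν) := by
    refine Integrable.of_bound (hxc.mul hf).aestronglyMeasurable (M * B) ?_
    filter_upwards [hae] with V hV
    rw [norm_mul, Complex.norm_real]
    exact mul_le_mul hV (hB V) (norm_nonneg _) hM
  have hi2 : Integrable (fun V : Λ → ℝ => ((V x : ℝ) : ℂ) * f (up V x)) (iid Λ ν) := by
    refine Integrable.of_bound (hxc.mul (hf.comp hcu)).aestronglyMeasurable (M * B) ?_
    filter_upwards [hae] with V hV
    rw [norm_mul, Complex.norm_real]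
    exact mul_le_mul hV (hB _) (norm_nonneg _) hM
  have hi3 : Integrable (fun V : Λ → ℝ => ‖f V - f (up V x)‖) (iid Λ ν) := by
    refine Integrable.of_bound (hf.sub (hf.comp hcu)).norm.aestronglyMeasurable (B + B) ?_
    refine Filter.Eventually.of_forall fun V => ?_
    rw [norm_norm]
    exact (norm_sub_le _ _).trans (add_le_add (hB V) (hB _))
  have e1 : ∫ V, ((V x : ℝ) : ℂ) * f V ∂(iid Λ ν) =
      ∫ V, ((V x : ℝ) : ℂ) * (f V - f (up V x)) ∂(iid Λ ν) := by
    have h2 : ∀ V : Λ → ℝ, ((V x : ℝ) : ℂ) * (f V - f (up V x)) =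
        ((V x : ℝ) : ℂ) * f V - ((V x : ℝ) : ℂ) * f (up V x) := fun V => by ring
    rw [integral_congr_ae (Filter.Eventually.of_forall h2), integral_sub hi1 hi2, hz, sub_zero]
  rw [e1, ← integral_const_mul]
  refine (norm_integral_le_integral_norm _).trans ?_
  refine integral_mono_ae ?_ (hi3.const_mul M) ?_
  · refine Integrable.norm ?_
    have h2 : (fun V : Λ → ℝ => ((V x : ℝ) : ℂ) * (f V - f (up V x))) =
        fun V => ((V x : ℝ) : ℂ) * f V - ((V x : ℝ) : ℂ) * f (up V x) := by
      funext V; ring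
    rw [h2]
    exact hi1.sub hi2
  · filter_upwards [hae] with V hV
    rw [norm_mul, Complex.norm_real]
    exact mul_le_mul_of_nonneg_right hV (norm_nonneg _)

end Pool.Agent.Q124.HB
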