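import Pool.Agent.Q218.HB.Stm

/-!
# Project HB, job RIE: Riemann sums for the Bessel function
-/

set_option autoImplicit false

open MeasureTheory

namespace Pool.Agent.Q124.HB

open Pool.Agent.Q218.HB

/-- the integrand -/
noncomputable def gB (q θ : ℝ) : ℂ := Complex.exp (2 * (q : ℂ) * Complex.I * (Real.cos θ : ℝ))

theorem gB_cont2 : Continuous (Function.uncurry gB) := by
  unfold Function.uncurry gB
  fun_prop

theorem gB_cont (q : ℝ) : Continuous (gB q) := by
  unfold gB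
  fun_prop

theorem gB_norm (q θ : ℝ) : ‖gB q θ‖ = 1 := by
  unfold gB
  have e : 2 * (q : ℂ) * Complex.I * ((Real.cos θ : ℝ) : ℂ) = ((2 * q * Real.cos θ : ℝ) : ℂ) * Complex.I := by
    push_cast
    ring
  rw [e, Complex.norm_exp_ofReal_mul_I]

theorem gB_lip (q : ℝ) (hq : 0 ≤ q) (θ φ : ℝ) : ‖gB q θ - gB q φ‖ ≤ 2 * q * |θ - φ| := by
  have e : gB q θ = gB q φ * Complex.exp (Complex.I * ((2 * q * (Real.cos θ - Real.cos φ) : ℝ) : ℂ)) := by
    unfold gB
    rw [← Complex.exp_add]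
    congr 1
    push_cast
    ring
  have e2 : gB q θ - gB q φ =
      gB q φ * (Complex.exp (Complex.I * ((2 * q * (Real.cos θ - Real.cos φ) : ℝ) : ℂ)) - 1) := by
    rw [e]; ring
  rw [e2, norm_mul, gB_norm, one_mul]
  refine (Real.norm_exp_I_mul_ofReal_sub_one_le).trans ?_
  rw [Real.norm_eq_abs, abs_mul, abs_of_nonneg (by linarith : 0 ≤ 2 * q)]
  exact mul_le_mul_of_nonneg_left (Real.abs_cos_sub_cos_le θ φ) (by linarith)

theorem bc_eq (q : ℝ) : bc q = (((2 * Real.pi)⁻¹ : ℝ) : ℂ) * ∫ θ in (0 : ℝ)..(2 * Real.pi), gB q θ := rfl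

theorem bc_cont : Continuous bc := by
  have h : Continuous fun q : ℝ => (((2 * Real.pi)⁻¹ : ℝ) : ℂ) * ∫ θ in (0 : ℝ)..(2 * Real.pi), gB q θ :=
    continuous_const.mul (intervalIntegral.continuous_parametric_intervalIntegral_of_continuous' gB_cont2 _ _)
  exact h

theorem bc_le (q : ℝ) : ‖bc q‖ ≤ 1 := by
  rw [bc_eq, norm_mul, Complex.norm_real, Real.norm_eq_abs, abs_of_pos (by positivity)]
  have h := intervalIntegral.norm_integral_le_of_norm_le_const (a := 0) (b := 2 * Real.pi) (f := gB q) (C := 1)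
    (fun θ _ => (gB_norm q θ).le)
  rw [sub_zero, abs_of_pos (by positivity), one_mul] at h
  calc (2 * Real.pi)⁻¹ * ‖∫ θ in (0 : ℝ)..(2 * Real.pi), gB q θ‖ ≤ (2 * Real.pi)⁻¹ * (2 * Real.pi) :=
        mul_le_mul_of_nonneg_left h (by positivity)
    _ = 1 := inv_mul_cancel₀ (by positivity)

variable {n : ℕ} [NeZero n]

theorem sum_val (f : ℕ → ℂ) : ∑ j : ZMod n, f j.val = ∑ j ∈ Finset.range n, f j := by
  refine Finset.sum_bij (fun (j : ZMod n) _ => j.val) ?_ ?_ ?_ ?_
  · intro j _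
    exact Finset.mem_range.2 (ZMod.val_lt j)
  · intro j _ k _ h
    exact ZMod.val_injective n h
  · intro b hb
    exact ⟨(b : ZMod n), Finset.mem_univ _, ZMod.val_cast_of_lt (Finset.mem_range.1 hb)⟩
  · intro j _
    rfl

theorem bn_eq (q : ℝ) : bn n q = ((n : ℂ))⁻¹ * ∑ j ∈ Finset.range n, gB q (2 * Real.pi * (j : ℝ) / n) := by
  unfold bn
  rw [← sum_val fun j => gB q (2 * Real.pi * (j : ℝ) / n)]
  rfl

theorem bn_le (q : ℝ) : ‖bn n q‖ ≤ 1 := by
  have hn : (0 : ℝ) < n := by exact_mod_cast Nat.pos_of_ne_zero (NeZero.ne n)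
  rw [bn_eq, norm_mul, norm_inv, Complex.norm_natCast]
  have h : ‖∑ j ∈ Finset.range n, gB q (2 * Real.pi * (j : ℝ) / n)‖ ≤ n := by
    refine (norm_sum_le _ _).trans ?_
    rw [Finset.sum_congr rfl fun j _ => gB_norm q _, Finset.sum_const, Finset.card_range, nsmul_eq_mul, mul_one]
  calc ((n : ℝ))⁻¹ * ‖∑ j ∈ Finset.range n, gB q (2 * Real.pi * (j : ℝ) / n)‖ ≤ ((n : ℝ))⁻¹ * n :=
        mul_le_mul_of_nonneg_left h (by positivity)
    _ = 1 := inv_mul_cancel₀ hn.ne'

/-- the Riemann sum -/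
theorem bn_sub_bc (q : ℝ) (hq : 0 ≤ q) : ‖bn n q - bc q‖ ≤ 4 * Real.pi * q / n := by
  have hn : (0 : ℝ) < n := by exact_mod_cast Nat.pos_of_ne_zero (NeZero.ne n)
  have hnC : (n : ℂ) ≠ 0 := by exact_mod_cast NeZero.ne n
  have hpi := Real.pi_pos
  set a : ℕ → ℝ := fun j => 2 * Real.pi * (j : ℝ) / n with ha
  have ha0 : a 0 = 0 := by simp [ha]
  have han : a n = 2 * Real.pi := by
    simp only [ha]
    field_simp
  have hstep : ∀ j, a (j + 1) - a j = 2 * Real.pi / n := by
    intro j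
    simp only [ha]
    push_cast
    ring
  have hsum : ∑ j ∈ Finset.range n, ∫ θ in (a j)..(a (j + 1)), gB q θ = ∫ θ in (0 : ℝ)..(2 * Real.pi), gB q θ := by
    rw [intervalIntegral.sum_integral_adjacent_intervals fun k _ => (gB_cont q).intervalIntegrable _ _, ha0, han]
  have hconst : ∀ j, ∫ _θ in (a j)..(a (j + 1)), gB q (a j) = ((2 * Real.pi / n : ℝ) : ℂ) * gB q (a j) := by
    intro j
    rw [intervalIntegral.integral_const, hstep]
    exact Complex.real_smul
  have e1 : bn n q = (((2 * Real.pi)⁻¹ : ℝ) : ℂ) * ∑ j ∈ Finset.range n, ∫ _θ in (a j)..(a (j + 1)), gB q (a j) := by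
    rw [bn_eq, Finset.sum_congr rfl fun j _ => hconst j, ← Finset.mul_sum, ← mul_assoc]
    congr 1
    push_cast
    have : (Real.pi : ℂ) ≠ 0 := by exact_mod_cast hpi.ne'
    field_simp
  have e2 : bn n q - bc q = (((2 * Real.pi)⁻¹ : ℝ) : ℂ) *
      ∑ j ∈ Finset.range n, ∫ θ in (a j)..(a (j + 1)), (gB q (a j) - gB q θ) := by
    rw [e1, bc_eq, ← hsum, ← mul_sub, ← Finset.sum_sub_distrib]
    congr 1
    refine Finset.sum_congr rfl fun j _ => ?_
    rw [intervalIntegral.integral_sub (by simp) ((gB_cont q).intervalIntegrable _ _)]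
  have hterm : ∀ j, ‖∫ θ in (a j)..(a (j + 1)), (gB q (a j) - gB q θ)‖ ≤
      (2 * q * (2 * Real.pi / n)) * (2 * Real.pi / n) := by
    intro j
    have hle : a j ≤ a (j + 1) := by
      have h1 : 0 ≤ 2 * Real.pi / n := by positivity
      linarith [hstep j]
    have h := intervalIntegral.norm_integral_le_of_norm_le_const (a := a j) (b := a (j + 1))
      (f := fun θ => gB q (a j) - gB q θ) (C := 2 * q * (2 * Real.pi / n)) (fun θ hθ => by
        rw [Set.uIoc_of_le hle] at hθ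
        refine (gB_lip q hq _ _).trans ?_
        refine mul_le_mul_of_nonneg_left ?_ (by linarith)
        rw [abs_sub_comm, abs_of_nonneg (by linarith [hθ.1])]
        linarith [hθ.2, hstep j])
    rw [hstep, abs_of_nonneg (by positivity : (0 : ℝ) ≤ 2 * Real.pi / n)] at h
    exact h
  rw [e2, norm_mul, Complex.norm_real, Real.norm_eq_abs, abs_of_pos (by positivity)]
  have h3 : ‖∑ j ∈ Finset.range n, ∫ θ in (a j)..(a (j + 1)), (gB q (a j) - gB q θ)‖ ≤
      n * ((2 * q * (2 * Real.pi / n)) * (2 * Real.pi / n)) := by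
    refine (norm_sum_le _ _).trans ?_
    refine (Finset.sum_le_sum fun j _ => hterm j).trans ?_
    rw [Finset.sum_const, Finset.card_range, nsmul_eq_mul]
  refine (mul_le_mul_of_nonneg_left h3 (by positivity)).trans (le_of_eq ?_)
  field_simp
  ring

theorem pow_le_add {x y e : ℝ} (hx0 : 0 ≤ x) (hx : x ≤ 1) (hy0 : 0 ≤ y) (hy : y ≤ 1) (he : 0 ≤ e)
    (h : x ≤ y + e) (m : ℕ) : x ^ m ≤ y ^ m + m * e := by
  induction m with
  | zero => simp
  | succ m ih =>
    have h1 : y ^ m ≤ 1 := pow_le_one₀ hy0 hy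
    have h0 : 0 ≤ y ^ m := pow_nonneg hy0 m
    have h2 : x * x ^ m ≤ x * (y ^ m + m * e) := mul_le_mul_of_nonneg_left ih hx0
    have h3 : x * y ^ m ≤ (y + e) * y ^ m := mul_le_mul_of_nonneg_right h h0
    have h4 : x * (m * e) ≤ 1 * (m * e) := mul_le_mul_of_nonneg_right hx (by positivity)
    have h5 : e * y ^ m ≤ e * 1 := mul_le_mul_of_nonneg_left h1 he
    rw [pow_succ', pow_succ']
    push_cast
    nlinarith

/-- JOB RIE -/
theorem rie : S_RIE := by
  intro m η δ hη hδ
  have hpi := Real.pi_pos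
  obtain ⟨n0, hn0⟩ := exists_nat_gt (16 * Real.pi * m / (η ^ 2 * δ))
  refine ⟨n0, fun n _ hn => ?_⟩
  have hnp : (0 : ℝ) < n := by exact_mod_cast Nat.pos_of_ne_zero (NeZero.ne n)
  have hbig : 16 * Real.pi * m / (η ^ 2 * δ) < n := hn0.trans_le (by exact_mod_cast hn)
  have i1 : Integrable (fun q : ℝ => Real.exp (-(η * q)) * ‖bc q‖ ^ m) (volume.restrict (Set.Ioi (0 : ℝ))) := by
    have i0 : Integrable (fun q : ℝ => Real.exp (-η * q)) (volume.restrict (Set.Ioi (0 : ℝ))) :=
      exp_neg_integrableOn_Ioi 0 hη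
    refine i0.mono' ?_ (Filter.Eventually.of_forall fun q => ?_)
    · refine Continuous.aestronglyMeasurable ?_
      exact (Real.continuous_exp.comp (by fun_prop)).mul ((bc_cont.norm).pow m)
    · rw [norm_mul, norm_pow, norm_norm, Real.norm_eq_abs, abs_of_pos (Real.exp_pos _)]
      have h1 : ‖bc q‖ ^ m ≤ 1 := pow_le_one₀ (norm_nonneg _) (bc_le q)
      have e : -(η * q) = -η * q := by ring
      rw [e]
      exact mul_le_of_le_one_right (Real.exp_pos _).le h1
  have i2 : Integrable (fun q : ℝ => (m * (4 * Real.pi / n) * (2 / η)) * Real.exp (-(η / 2) * q))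
      (volume.restrict (Set.Ioi (0 : ℝ))) := by
    refine Integrable.const_mul ?_ _
    exact exp_neg_integrableOn_Ioi 0 (by positivity)
  have h1 : In n m η ≤ ∫ q in Set.Ioi (0 : ℝ), (Real.exp (-(η * q)) * ‖bc q‖ ^ m +
      (m * (4 * Real.pi / n) * (2 / η)) * Real.exp (-(η / 2) * q)) := by
    unfold In
    refine integral_mono_of_nonneg (Filter.Eventually.of_forall fun q => by positivity) (i1.add i2) ?_
    refine (ae_restrict_iff' measurableSet_Ioi).2 (Filter.Eventually.of_forall fun q hq => ?_)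
    have hq' : 0 < q := hq
    simp only []
    have h2 : ‖bn n q‖ ≤ ‖bc q‖ + 4 * Real.pi * q / n := by
      have h3 := bn_sub_bc (n := n) q hq'.le
      have h4 : ‖bn n q‖ ≤ ‖bc q‖ + ‖bn n q - bc q‖ := by
        have := norm_add_le (bc q) (bn n q - bc q)
        rwa [add_sub_cancel] at this
      linarith
    have h5 := pow_le_add (norm_nonneg _) (bn_le (n := n) q) (norm_nonneg _) (bc_le q)
      (by positivity : 0 ≤ 4 * Real.pi * q / n) h2 m
    have hE : 0 < Real.exp (-(η * q)) := Real.exp_pos _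
    have h6 : Real.exp (-(η * q)) * ‖bn n q‖ ^ m ≤
        Real.exp (-(η * q)) * (‖bc q‖ ^ m + m * (4 * Real.pi * q / n)) :=
      mul_le_mul_of_nonneg_left h5 hE.le
    have h7 : q * Real.exp (-(η * q)) ≤ (2 / η) * Real.exp (-(η / 2) * q) := by
      have h8 : η / 2 * q ≤ Real.exp (η / 2 * q) := by
        have := Real.add_one_le_exp (η / 2 * q)
        linarith
      have e1 : Real.exp (-(η / 2) * q) = Real.exp (η / 2 * q) * Real.exp (-(η * q)) := by
        rw [← Real.exp_add]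
        congr 1
        ring
      rw [e1]
      have e2 : (2 / η) * (Real.exp (η / 2 * q) * Real.exp (-(η * q))) =
          ((2 / η) * Real.exp (η / 2 * q)) * Real.exp (-(η * q)) := by ring
      rw [e2]
      refine mul_le_mul_of_nonneg_right ?_ hE.le
      have e3 : q = (2 / η) * (η / 2 * q) := by field_simp
      calc q = (2 / η) * (η / 2 * q) := e3
        _ ≤ (2 / η) * Real.exp (η / 2 * q) := mul_le_mul_of_nonneg_left h8 (by positivity)
    have h9 : (m * (4 * Real.pi / n)) * (q * Real.exp (-(η * q))) ≤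
        (m * (4 * Real.pi / n)) * ((2 / η) * Real.exp (-(η / 2) * q)) :=
      mul_le_mul_of_nonneg_left h7 (by positivity)
    have e4 : Real.exp (-(η * q)) * (‖bc q‖ ^ m + m * (4 * Real.pi * q / n)) =
        Real.exp (-(η * q)) * ‖bc q‖ ^ m + (m * (4 * Real.pi / n)) * (q * Real.exp (-(η * q))) := by ring
    rw [e4] at h6
    linarith
  refine h1.trans ?_
  rw [integral_add i1 i2, integral_const_mul, integral_exp_mul_Ioi (by linarith : -(η / 2) < 0) 0]
  have e5 : (m * (4 * Real.pi / n) * (2 / η)) * (-Real.exp (-(η / 2) * 0) / -(η / 2)) ≤ δ := by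
    rw [mul_zero, Real.exp_zero]
    have e6 : (m * (4 * Real.pi / n) * (2 / η)) * (-1 / -(η / 2)) = (16 * Real.pi * m / η ^ 2) / n := by
      field_simp
      ring
    rw [e6, div_le_iff₀ hnp]
    rw [div_lt_iff₀ (by positivity)] at hbig
    rw [div_le_iff₀ (by positivity)]
    nlinarith
  linarith

end Pool.Agent.Q124.HB
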