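import Mathlib

/-!
# MP_5a160e_an: order constraints on ten points of a line

`ten` : two sequences on `Z/10` with the recurrence `a (t+4) + φ a (t+2) + a t = 0` (`φ` the golden ratio) which are
ordered in the same way, even after shifting one of them by `1` or by `3`, cannot both be nonzero.
-/

namespace Pool.Agent.Q124.HB

/-- not all of `b t`, `b (t+1)`, `b (t-3)` are equal -/
def zz (b : Fin 10 → Bool) (t : Fin 10) : Bool := !(b t == b (t + 1) && b t == b (t + 7))

/-- the combinatorial condition -/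
def okb (b : Fin 10 → Bool) : Bool :=
  !(decide (∃ s : Fin 10, b s = true ∧ b (s + 4) = true) && decide (∃ s : Fin 10, b s = false ∧ b (s + 4) = false)) ||
  (decide (∃ t : Fin 10, zz b t = true ∧ zz b (t + 4) = true ∧ (zz b (t + 8) = true ∨ zz b (t + 2) = true)) &&
   decide (∃ e : Fin 10, b e = true ∧ b (e + 1) = false) && decide (∃ e : Fin 10, b e = false ∧ b (e + 1) = true) &&
   decide (∃ e : Fin 10, b e = true ∧ b (e + 7) = false) && decide (∃ e : Fin 10, b e = false ∧ b (e + 7) = true))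

set_option maxRecDepth 100000 in
theorem okb_all : ∀ b0 b1 b2 b3 b4 b5 b6 b7 b8 b9 : Bool,
    okb ![b0, b1, b2, b3, b4, b5, b6, b7, b8, b9] = true := by
  decide +kernel

theorem okb_true (b : Fin 10 → Bool) : okb b = true := by
  have h := okb_all (b 0) (b 1) (b 2) (b 3) (b 4) (b 5) (b 6) (b 7) (b 8) (b 9)
  have e : b = ![b 0, b 1, b 2, b 3, b 4, b 5, b 6, b 7, b 8, b 9] := by
    ext i
    fin_cases i <;> rfl
  rw [e]
  exact h


/-- five numbers in a cycle with `a (j+1) + a (j-1) = ψ a j` and no sign change from `a j` to `a (j+1)` -/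
theorem five {ψ a0 a1 a2 a3 a4 : ℝ} (hψ : 0 < ψ) (hψ2 : ψ ^ 2 = 1 - ψ)
    (h0 : a1 + a4 = ψ * a0) (h1 : a2 + a0 = ψ * a1) (h4 : a0 + a3 = ψ * a4)
    (hs : a0 + a1 + a2 + a3 + a4 = 0) (hpos : 0 < a0)
    (p0 : 0 < a0 → 0 ≤ a1) (p1 : 0 < a1 → 0 ≤ a2) (n3 : a3 < 0 → a4 ≤ 0) (n4 : a4 < 0 → a0 ≤ 0) : False := by
  have c1 : 0 ≤ a1 := p0 hpos
  have c4 : 0 ≤ a4 := by
    by_contra h
    exact absurd (n4 (not_le.1 h)) (not_le.2 hpos)
  rcases c1.eq_or_lt with e1 | g1
  · have e4 : a4 = ψ * a0 := by linarith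
    have g4 : 0 < a4 := by rw [e4]; positivity
    have e3 : a3 = -(ψ * a0) := by
      have : a3 = ψ * (ψ * a0) - a0 := by rw [← e4]; linarith
      rw [this]
      linear_combination a0 * hψ2
    have g3 : a3 < 0 := by rw [e3]; nlinarith
    exact absurd (n3 g3) (not_le.2 g4)
  · rcases c4.eq_or_lt with e4 | g4
    · have e1 : a1 = ψ * a0 := by linarith
      have e2 : a2 = -(ψ * a0) := by
        have : a2 = ψ * (ψ * a0) - a0 := by rw [← e1]; linarith
        rw [this]
        linear_combination a0 * hψ2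
      have := p1 g1
      rw [e2] at this
      nlinarith
    · have c2 := p1 g1
      have c3 : 0 ≤ a3 := by
        by_contra h
        exact absurd (n3 (not_le.1 h)) (not_le.2 g4)
      linarith

/-- relations which follow from the recurrence -/
theorem rel {φ : ℝ} (hφ : φ ^ 2 = φ + 1) {u : Fin 10 → ℝ} (hu : ∀ t, u (t + 4) + φ * u (t + 2) + u t = 0)
    (t : Fin 10) : u (t + 8) + u t = (φ - 1) * u (t + 4) ∧ u t + u (t + 2) + u (t + 4) + u (t + 6) + u (t + 8) = 0 := by
  have a0 := hu t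
  have a2 := hu (t + 2)
  have a4 := hu (t + 4)
  have e1 : t + 2 + 4 = t + 6 := by rw [add_assoc]; rfl
  have e2 : t + 2 + 2 = t + 4 := by rw [add_assoc]; rfl
  have e3 : t + 4 + 4 = t + 8 := by rw [add_assoc]; rfl
  have e4 : t + 4 + 2 = t + 6 := by rw [add_assoc]; rfl
  rw [e1, e2] at a2
  rw [e3, e4] at a4
  constructor
  · linear_combination a4 - φ * a2 + a0 + u (t + 4) * hφ
  · linear_combination a4 - φ * a2 + a2 + a0 + u (t + 4) * hφ

/-- a nonzero sequence has two positive neighbours (for the step `4`) -/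
theorem pos2 {φ : ℝ} (h1 : 1 < φ) (hφ : φ ^ 2 = φ + 1) {u : Fin 10 → ℝ}
    (hu : ∀ t, u (t + 4) + φ * u (t + 2) + u t = 0) (t : Fin 10) (ht : u t ≠ 0) :
    ∃ s, 0 < u s ∧ 0 < u (s + 4) := by
  have e : ∃ s, 0 < u s := by
    by_contra hcon
    push Not at hcon
    have h := (rel hφ hu t).2
    have k0 := hcon t
    have k2 := hcon (t + 2)
    have k4 := hcon (t + 4)
    have k6 := hcon (t + 6)
    have k8 := hcon (t + 8)
    exact ht (by linarith)
  obtain ⟨s, hs⟩ := e
  have h := (rel hφ hu (s + 6)).1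
  have e1 : s + 6 + 8 = s + 4 := by rw [add_assoc]; rfl
  have e2 : s + 6 + 4 = s := by
    rw [add_assoc]
    have : (6 : Fin 10) + 4 = 0 := rfl
    rw [this, add_zero]
  rw [e1, e2] at h
  have h3 : 0 < (φ - 1) * u s := mul_pos (by linarith) hs
  by_cases h4 : 0 < u (s + 4)
  · exact ⟨s, hs, h4⟩
  · refine ⟨s + 6, by linarith, ?_⟩
    rw [e2]
    exact hs

/-- ten points -/
theorem ten {φ : ℝ} (h1 : 1 < φ) (h2 : φ < 2) (hφ : φ ^ 2 = φ + 1) (u v : Fin 10 → ℝ)
    (hu : ∀ t, u (t + 4) + φ * u (t + 2) + u t = 0) (hv : ∀ t, v (t + 4) + φ * v (t + 2) + v t = 0)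
    (I0 : ∀ i j, 0 ≤ (u i - u j) * (v i - v j))
    (I1 : ∀ i j, 0 ≤ (u (i + 1) - u (j + 1)) * (v i - v j))
    (I3 : ∀ i j, 0 ≤ (u (i + 7) - u (j + 7)) * (v i - v j)) :
    (∀ t, u t = 0) ∨ ∀ t, v t = 0 := by
  classical
  by_contra hcon
  push Not at hcon
  obtain ⟨⟨s0, hs0⟩, ⟨s1, hs1⟩⟩ := hcon
  -- signs of `u`
  obtain ⟨p, hp1, hp2⟩ := pos2 h1 hφ hu s0 hs0
  obtain ⟨q, hq1, hq2⟩ := pos2 (u := fun t => -u t) h1 hφ
    (fun t => by linear_combination -(hu t)) s0 (neg_ne_zero.2 hs0)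
  have hq1 : u q < 0 := by linarith
  have hq2 : u (q + 4) < 0 := by linarith
  set b : Fin 10 → Bool := fun i => decide (0 < u i) with hb
  have bt : ∀ i, b i = true ↔ 0 < u i := fun i => by simp [hb]
  have bf : ∀ i, b i = false ↔ u i ≤ 0 := fun i => by simp [hb]
  have hok := okb_true b
  unfold okb at hok
  simp only [Bool.or_eq_true, Bool.and_eq_true, Bool.not_eq_true', Bool.and_eq_false_iff,
    decide_eq_true_eq, decide_eq_false_iff_not] at hok
  rcases hok with hok | ⟨⟨⟨⟨⟨t, ht⟩, e, he⟩, e', he'⟩, f, hf⟩, f', hf'⟩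
  · rcases hok with hok | hok
    · exact hok ⟨p, (bt p).2 hp1, (bt _).2 hp2⟩
    · exact hok ⟨q, (bf q).2 hq1.le, (bf _).2 hq2.le⟩
  -- comparisons
  have cmp0 : ∀ i j, b i = true → b j = false → v j ≤ v i := by
    intro i j hi hj
    have h3 := I0 i j
    have h4 := (bt i).1 hi
    have h5 := (bf j).1 hj
    by_contra h6
    push Not at h6
    nlinarith [mul_pos (sub_pos.2 (lt_of_le_of_lt h5 h4)) (sub_pos.2 h6)]
  have cmp1 : ∀ i j, b (i + 1) = true → b (j + 1) = false → v j ≤ v i := by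
    intro i j hi hj
    have h3 := I1 i j
    have h4 := (bt _).1 hi
    have h5 := (bf _).1 hj
    by_contra h6
    push Not at h6
    nlinarith [mul_pos (sub_pos.2 (lt_of_le_of_lt h5 h4)) (sub_pos.2 h6)]
  have cmp3 : ∀ i j, b (i + 7) = true → b (j + 7) = false → v j ≤ v i := by
    intro i j hi hj
    have h3 := I3 i j
    have h4 := (bt _).1 hi
    have h5 := (bf _).1 hj
    by_contra h6
    push Not at h6
    nlinarith [mul_pos (sub_pos.2 (lt_of_le_of_lt h5 h4)) (sub_pos.2 h6)]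
  have ee : v e = v e' := le_antisymm (cmp1 e' e he'.2 he.2) (cmp0 e e' he.1 he'.1)
  set z := v e with hz
  have T0 : ∀ i, b i = true → z ≤ v i := fun i hi => by rw [ee]; exact cmp0 i e' hi he'.1
  have F0 : ∀ i, b i = false → v i ≤ z := fun i hi => cmp0 e i he.1 hi
  have T1 : ∀ i, b (i + 1) = true → z ≤ v i := fun i hi => cmp1 i e hi he.2
  have F1 : ∀ i, b (i + 1) = false → v i ≤ z := fun i hi => by rw [ee]; exact cmp1 e' i he'.2 hi
  have ff : v f' = z ∧ v f = z := by
    have a1 := T0 f hf.1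
    have a2 := F0 f' hf'.1
    have a3 := cmp3 f' f hf'.2 hf.2
    constructor <;> linarith
  have T3 : ∀ i, b (i + 7) = true → z ≤ v i := fun i hi => by rw [← ff.2]; exact cmp3 i f hi hf.2
  have F3 : ∀ i, b (i + 7) = false → v i ≤ z := fun i hi => by rw [← ff.1]; exact cmp3 f' i hf'.2 hi
  have zzv : ∀ i, zz b i = true → v i = z := by
    intro i hi
    unfold zz at hi
    have a1 := T0 i
    have a2 := F0 i
    have a3 := T1 i
    have a4 := F1 i
    have a5 := T3 i
    have a6 := F3 i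
    revert hi a1 a2 a3 a4 a5 a6
    cases b i <;> cases b (i + 1) <;> cases b (i + 7) <;> simp <;> intros <;> linarith
  -- `z = 0`
  have z0 : z = 0 := by
    have b1 := zzv t ht.1
    have b2 := zzv (t + 4) ht.2.1
    rcases ht.2.2 with h3 | h3
    · have b3 := zzv (t + 8) h3
      have b4 := (rel hφ hv t).1
      rw [b1, b2, b3] at b4
      have b5 : (3 - φ) * z = 0 := by linear_combination b4
      rcases mul_eq_zero.1 b5 with b6 | b6
      · linarith
      · exact b6
    · have b3 := zzv (t + 2) h3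
      have b4 := hv t
      rw [b1, b2, b3] at b4
      have b5 : (2 + φ) * z = 0 := by linear_combination b4
      rcases mul_eq_zero.1 b5 with b6 | b6
      · linarith
      · exact b6
  -- no sign changes
  have sg : ∀ i, (0 < v i → 0 ≤ v (i + 4)) ∧ (v i < 0 → v (i + 4) ≤ 0) := by
    intro i
    have e1 : i + 4 + 7 = i + 1 := by rw [add_assoc]; rfl
    have c1 := T3 (i + 4)
    have c2 := F3 (i + 4)
    rw [e1] at c1 c2
    have c3 := T1 i
    have c4 := F1 i
    rw [z0] at c1 c2 c3 c4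
    constructor
    · intro h
      cases hbb : b (i + 1) with
      | false => exact absurd (c4 hbb) (not_le.2 h)
      | true => exact c1 hbb
    · intro h
      cases hbb : b (i + 1) with
      | true => exact absurd (c3 hbb) (not_le.2 h)
      | false => exact c2 hbb
  have hψ : 0 < φ - 1 := by linarith
  have hψ2 : (φ - 1) ^ 2 = 1 - (φ - 1) := by linear_combination hφ
  have k1 : s1 + 4 + 4 = s1 + 8 := by rw [add_assoc]; rfl
  have k2 : s1 + 8 + 4 = s1 + 2 := by rw [add_assoc]; rfl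
  have k3 : s1 + 2 + 4 = s1 + 6 := by rw [add_assoc]; rfl
  have k4 : s1 + 6 + 4 = s1 := by
    rw [add_assoc]
    have : (6 : Fin 10) + 4 = 0 := rfl
    rw [this, add_zero]
  have k5 : s1 + 6 + 8 = s1 + 4 := by rw [add_assoc]; rfl
  have k6 : s1 + 2 + 8 = s1 := by
    rw [add_assoc]
    have : (2 : Fin 10) + 8 = 0 := rfl
    rw [this, add_zero]
  have r0 := (rel hφ hv (s1 + 6)).1
  rw [k5, k4] at r0
  have r1 := (rel hφ hv s1).1
  have r4 := (rel hφ hv (s1 + 2)).1
  rw [k6, k3] at r4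
  have rs := (rel hφ hv s1).2
  have q0 := sg s1
  have q1 := sg (s1 + 4)
  rw [k1] at q1
  have q3 := sg (s1 + 2)
  rw [k3] at q3
  have q4 := sg (s1 + 6)
  rw [k4] at q4
  rcases lt_trichotomy (v s1) 0 with hn | hn | hn
  · exact five (a0 := -v s1) (a1 := -v (s1 + 4)) (a2 := -v (s1 + 8)) (a3 := -v (s1 + 2)) (a4 := -v (s1 + 6))
      hψ hψ2 (by linarith) (by linarith) (by linarith) (by linarith) (by linarith)
      (fun h => by have := q0.2 (by linarith); linarith) (fun h => by have := q1.2 (by linarith); linarith)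
      (fun h => by have := q3.1 (by linarith); linarith) (fun h => by have := q4.1 (by linarith); linarith)
  · exact hs1 hn
  · exact five (a0 := v s1) (a1 := v (s1 + 4)) (a2 := v (s1 + 8)) (a3 := v (s1 + 2)) (a4 := v (s1 + 6))
      hψ hψ2 (by linarith) (by linarith) (by linarith) (by linarith) hn q0.1 q1.1 q3.2 q4.2

end Pool.Agent.Q124.HB
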